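import Mathlib

/-!
# Graded algebras: components, decomposition of Fitting
-/

set_option autoImplicit false

namespace Pool.Agent.Zk90.KG

open Polynomial

variable {S : Type*} [Ring S] [Algebra ℚ S]

/-- a grading, given by the projections to the components -/
structure Gr (S : Type*) [Ring S] [Algebra ℚ S] where
  c : ℤ → S →ₗ[ℚ] S
  E : Finset ℤ
  sum : ∀ x, ∑ r ∈ E, c r x = x
  idem : ∀ r s x, c r (c s x) = if r = s then c s x else 0
  mul : ∀ r s t x y, c t (c r x * c s y) = if t = r + s then c r x * c s y else 0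
  one : c 0 1 = 1

namespace Gr

variable (G : Gr S)

lemma c_notMem {r : ℤ} (hr : r ∉ G.E) (x : S) : G.c r x = 0 := by
  conv_lhs => rw [← G.sum x]
  rw [map_sum]
  refine Finset.sum_eq_zero fun s hs => ?_
  rw [G.idem, if_neg]
  rintro rfl
  exact hr hs

lemma c_pow {r : ℤ} {x : S} (hx : G.c r x = x) (n : ℕ) : G.c (n * r) (x ^ n) = x ^ n := by
  induction n with
  | zero =>
    rw [pow_zero, Nat.cast_zero, zero_mul, G.one]
  | succ n ih =>
    have h := G.mul (n * r) r ((n + 1 : ℕ) * r) (x ^ n) x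
    rw [ih, hx, if_pos (by push_cast; ring)] at h
    rw [pow_succ]
    exact h

lemma isNilpotent_of_deg {r : ℤ} (hr : r ≠ 0) {x : S} (hx : G.c r x = x) : IsNilpotent x := by
  set n : ℕ := G.E.sup Int.natAbs + 1 with hn
  refine ⟨n, ?_⟩
  rw [← G.c_pow hx n]
  refine G.c_notMem ?_ _
  intro h
  have h1 : (n * r : ℤ).natAbs ≤ G.E.sup Int.natAbs := Finset.le_sup (f := Int.natAbs) h
  rw [Int.natAbs_mul, Int.natAbs_natCast] at h1
  have h2 : 1 ≤ r.natAbs := Int.natAbs_pos.2 hr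
  nlinarith

lemma c_mul_deg_zero (r : ℤ) (x : S) {y : S} (hy : G.c 0 y = y) : G.c r (x * y) = G.c r x * y := by
  have h1 : x * y = ∑ s ∈ G.E, G.c s x * y := by
    rw [← Finset.sum_mul, G.sum]
  rw [h1, map_sum]
  have h2 : ∀ s ∈ G.E, G.c r (G.c s x * y) = if r = s then G.c s x * y else 0 := by
    intro s _
    have h := G.mul s 0 r x y
    rw [hy, add_zero] at h
    exact h
  rw [Finset.sum_congr rfl h2]
  by_cases hr : r ∈ G.E
  · rw [Finset.sum_ite_eq G.E r, if_pos hr]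
  · rw [Finset.sum_ite_eq G.E r, if_neg hr, G.c_notMem hr, zero_mul]

lemma deg_zero_mul_c (r : ℤ) {x : S} (hx : G.c 0 x = x) (y : S) : G.c r (x * y) = x * G.c r y := by
  have h1 : x * y = ∑ s ∈ G.E, x * G.c s y := by
    rw [← Finset.mul_sum, G.sum]
  rw [h1, map_sum]
  have h2 : ∀ s ∈ G.E, G.c r (x * G.c s y) = if r = s then x * G.c s y else 0 := by
    intro s _
    have h := G.mul 0 s r x y
    rw [hx, zero_add] at h
    exact h
  rw [Finset.sum_congr rfl h2]
  by_cases hr : r ∈ G.E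
  · rw [Finset.sum_ite_eq G.E r, if_pos hr]
  · rw [Finset.sum_ite_eq G.E r, if_neg hr, G.c_notMem hr, mul_zero]

lemma deg_zero_mul {x y : S} (hx : G.c 0 x = x) (hy : G.c 0 y = y) : G.c 0 (x * y) = x * y := by
  rw [G.c_mul_deg_zero 0 x hy, hx]

/-- the component of degree zero of a product -/
lemma c_zero_mul (x y : S) : G.c 0 (x * y) = ∑ r ∈ G.E, G.c r x * G.c (-r) y := by
  have h1 : x * y = ∑ r ∈ G.E, ∑ s ∈ G.E, G.c r x * G.c s y := by
    rw [← Finset.sum_mul_sum, G.sum, G.sum]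
  rw [h1, map_sum]
  refine Finset.sum_congr rfl fun r _ => ?_
  rw [map_sum]
  have h2 : ∀ s ∈ G.E, G.c 0 (G.c r x * G.c s y) = if -r = s then G.c r x * G.c s y else 0 := by
    intro s _
    rw [G.mul]
    by_cases h : -r = s
    · rw [if_pos h, if_pos (by omega)]
    · rw [if_neg h, if_neg (by omega)]
  rw [Finset.sum_congr rfl h2]
  by_cases hr : -r ∈ G.E
  · rw [Finset.sum_ite_eq G.E (-r), if_pos hr]
  · rw [Finset.sum_ite_eq G.E (-r), if_neg hr, G.c_notMem hr, mul_zero]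

lemma c_deg_mul (r : ℤ) (x y : S) : G.c 0 (G.c r x * G.c (-r) y) = G.c r x * G.c (-r) y := by
  rw [G.mul, if_pos (by omega)]

lemma deg_zero_aeval {x : S} (hx : G.c 0 x = x) (P : ℚ[X]) : G.c 0 (aeval x P) = aeval x P := by
  rw [aeval_eq_sum_range, map_sum]
  refine Finset.sum_congr rfl fun i _ => ?_
  rw [map_smul]
  have h := G.c_pow hx i
  rw [mul_zero] at h
  rw [h]

end Gr

/-! ### The decomposition of Fitting -/

lemma fit {h : S} (hint : IsIntegral ℚ h) : ∃ (k : ℕ) (u : ℚ[X]), 1 ≤ k ∧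
    aeval h (u * X ^ k) * aeval h (u * X ^ k) = aeval h (u * X ^ k) ∧
    h ^ k = h ^ k * aeval h (u * X ^ k) := by
  set χ := minpoly ℚ h with hχd
  have hχ : χ ≠ 0 := minpoly.ne_zero hint
  have hχh : aeval h χ = 0 := minpoly.aeval ℚ h
  have hχX : X * χ ≠ 0 := mul_ne_zero X_ne_zero hχ
  obtain ⟨ψ, hψ, hψ'⟩ := exists_eq_pow_rootMultiplicity_mul_and_not_dvd (X * χ) hχX 0
  rw [C_0, sub_zero] at hψ hψ'
  set k := (X * χ).rootMultiplicity 0 with hk
  have hk1 : 1 ≤ k := by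
    by_contra hk0
    have hk0 : k = 0 := by omega
    rw [hk0, pow_zero, one_mul] at hψ
    exact hψ' (hψ ▸ dvd_mul_right _ _)
  have hcop : IsCoprime (X ^ k : ℚ[X]) ψ :=
    IsCoprime.pow_left ((irreducible_X.coprime_iff_not_dvd).2 hψ')
  obtain ⟨u, v, huv⟩ := hcop
  have hprod : aeval h (X ^ k * ψ) = 0 := by
    rw [← hψ, map_mul, hχh, mul_zero]
  refine ⟨k, u, hk1, ?_, ?_⟩
  · have e1 : u * X ^ k * (u * X ^ k) = u * X ^ k - u * v * (X ^ k * ψ) := by
      have : u * X ^ k = 1 - v * ψ := by rw [← huv]; ring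
      calc u * X ^ k * (u * X ^ k) = u * X ^ k * (1 - v * ψ) := by rw [← this]
        _ = _ := by ring
    rw [← map_mul, e1, map_sub, map_mul (aeval h) (u * v), hprod, mul_zero, sub_zero]
  · have e1 : (X ^ k : ℚ[X]) = X ^ k * (u * X ^ k) + v * (X ^ k * ψ) := by
      calc (X ^ k : ℚ[X]) = X ^ k * (u * X ^ k + v * ψ) := by rw [huv, mul_one]
        _ = _ := by ring
    have e2 := congrArg (aeval h) e1
    rw [map_add, map_mul (aeval h) v, hprod, mul_zero, add_zero, map_mul, map_pow, aeval_X] at e2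
    exact e2

lemma aeval_factor (h : S) (u : ℚ[X]) {k : ℕ} (hk : 1 ≤ k) :
    aeval h (u * X ^ k) = h * aeval h (u * X ^ (k - 1)) ∧
      aeval h (u * X ^ k) = aeval h (u * X ^ (k - 1)) * h := by
  have e1 : u * X ^ k = X * (u * X ^ (k - 1)) := by
    obtain ⟨j, rfl⟩ := Nat.exists_eq_add_of_le' hk
    rw [Nat.add_sub_cancel]
    ring
  have e2 : u * X ^ k = (u * X ^ (k - 1)) * X := by rw [e1]; ring
  constructor
  · rw [e1, map_mul, aeval_X]
  · rw [e2, map_mul, aeval_X]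

end Pool.Agent.Zk90.KG
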