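import Pool.Agent.Zk90.KG.B
import Pool.Agent.TH829.Kim.Alg2

/-!
# Graded algebras with a trace: an idempotent in an ideal of finite-dimensional elements contains an
idempotent of degree zero
-/

set_option autoImplicit false

namespace Pool.Agent.Zk90.KG

open Polynomial Pool.Agent.TH829.Kim

section fin

variable {S : Type*} [Ring S] [Algebra ℚ S]

/-- A two-sided ideal of finite-dimensional elements: the contractions of the (anti)symmetrizations
of high order of its elements vanish. -/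
structure FinI (tr : S →ₗ[ℚ] ℚ) (η : ℚ) (I : S → Prop) : Prop where
  zero : I 0
  add : ∀ a b, I a → I b → I (a + b)
  left : ∀ a b, I b → I (a * b)
  right : ∀ a b, I a → I (a * b)
  K_eq : ∀ a, I a → ∃ n, K tr η n (fun _ => a) = 0
  F_eq : ∀ a, I a → ∃ n, ∀ k, 1 ≤ k → F tr η (n + 1) (fun _ => a ^ k) = 0

variable {tr : S →ₗ[ℚ] ℚ} {η : ℚ} {I : S → Prop}

namespace FinI

lemma smul (hI : FinI tr η I) {a : S} (ha : I a) (c : ℚ) : I (c • a) := by
  rw [Algebra.smul_def]
  exact hI.left _ _ ha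

lemma sub (hI : FinI tr η I) {a b : S} (ha : I a) (hb : I b) : I (a - b) := by
  have h1 := hI.smul hb (-1)
  rw [neg_one_smul] at h1
  rw [sub_eq_add_neg]
  exact hI.add _ _ ha h1

lemma nil_of_tr (hI : FinI tr η I) (hη : η ≠ 0) {a : S} (ha : I a)
    (h : ∀ k, 1 ≤ k → tr (a ^ k) = 0) : IsNilpotent a := by
  obtain ⟨n, hn⟩ := hI.K_eq a ha
  have h1 := K_of_tr_zero tr η h n (fun _ => 1) (fun _ => le_rfl)
  simp only [pow_one, Finset.sum_const, Finset.card_univ, Fintype.card_fin, smul_eq_mul,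
    mul_one] at h1
  rw [hn] at h1
  have h2 : (η ^ n * n.factorial : ℚ) ≠ 0 := by positivity
  exact ⟨n + 1, (smul_eq_zero.1 h1.symm).resolve_left h2⟩

lemma tr_of_nil (hI : FinI tr η I) {a : S} (ha : I a) (hn : IsNilpotent a) : tr a = 0 := by
  obtain ⟨n, h⟩ := hI.F_eq a ha
  have h3 := tr_eq_zero_of_isNilpotent tr η hn (n := n) h 1 le_rfl
  rwa [pow_one] at h3

lemma integral (hI : FinI tr η I) (hη : η ≠ 0) {a : S} (ha : I a) : IsIntegral ℚ a := by
  obtain ⟨n, hn⟩ := hI.K_eq a ha
  obtain ⟨q, hq, hq'⟩ := K_eq_poly tr η a n (fun _ => 1) (fun _ => le_rfl)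
  simp only [pow_one, Finset.sum_const, Finset.card_univ, Fintype.card_fin, smul_eq_mul,
    mul_one] at hq hq'
  rw [hn] at hq'
  set c : ℚ := η ^ n * n.factorial with hc
  have hc0 : c ≠ 0 := by positivity
  refine ⟨X ^ (n + 1) + C c⁻¹ * q, ?_, ?_⟩
  · refine monic_X_pow_add ?_
    rw [degree_C_mul (inv_ne_zero hc0)]
    exact_mod_cast hq
  · change aeval a (X ^ (n + 1) + C c⁻¹ * q) = 0
    rw [map_add, map_pow, aeval_X, map_mul, aeval_C, ← Algebra.smul_def]
    have h1 : aeval a q = -(c • a ^ (n + 1)) := by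
      rw [eq_neg_iff_add_eq_zero, add_comm]
      exact hq'.symm
    rw [h1, smul_neg, smul_smul, inv_mul_cancel₀ hc0, one_smul, add_neg_cancel]

lemma tr_idem (hI : FinI tr η I) {ε : S} (hε : I ε) (h : ε * ε = ε) (h0 : ε ≠ 0) :
    ∃ j : ℕ, 1 ≤ j ∧ tr ε = -(j * η) := by
  obtain ⟨n, hn⟩ := hI.K_eq ε hε
  rw [K_idem tr η h n] at hn
  have h1 := (smul_eq_zero.1 hn).resolve_right h0
  obtain ⟨j, -, hj⟩ := Finset.prod_eq_zero_iff.1 h1
  refine ⟨j + 1, by omega, ?_⟩
  push_cast
  linarith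

/-- the trace of an idempotent, up to the sign a natural number -/
lemma tr_idem' (hI : FinI tr η I) {ε : S} (hε : I ε) (h : ε * ε = ε) :
    ∃ j : ℕ, tr ε = -(j * η) := by
  by_cases h0 : ε = 0
  · exact ⟨0, by rw [h0, map_zero]; simp⟩
  · obtain ⟨j, -, hj⟩ := hI.tr_idem hε h h0
    exact ⟨j, hj⟩

end FinI

end fin

variable {S : Type*} [Ring S] [Algebra ℚ S] (G : Gr S) {tr : S →ₗ[ℚ] ℚ} {η : ℚ} (I : S → Prop)

/-- `p` is a nonzero idempotent of degree zero in the ideal `I` which does not contain proper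
idempotents of degree zero -/
structure Prim (p : S) : Prop where
  deg : G.c 0 p = p
  idem : p * p = p
  ne : p ≠ 0
  mem : I p
  min : ∀ ε : S, G.c 0 ε = ε → ε * ε = ε → p * ε = ε → ε * p = ε → ε = 0 ∨ ε = p

/-- the elements of degree zero of `p S p` -/
structure InP (p x : S) : Prop where
  deg : G.c 0 x = x
  l : p * x = x
  r : x * p = x

variable {G I} {p : S}

lemma InP.mul {x y : S} (hx : InP G p x) (hy : InP G p y) : InP G p (x * y) :=
  ⟨G.deg_zero_mul hx.deg hy.deg, by rw [← mul_assoc, hx.l], by rw [mul_assoc, hy.r]⟩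

lemma InP.add {x y : S} (hx : InP G p x) (hy : InP G p y) : InP G p (x + y) :=
  ⟨by rw [map_add, hx.deg, hy.deg], by rw [mul_add, hx.l, hy.l], by rw [add_mul, hx.r, hy.r]⟩

lemma InP.zero : InP G p 0 := ⟨map_zero _, mul_zero _, zero_mul _⟩

lemma InP.sum {ι : Type*} (T : Finset ι) {x : ι → S} (h : ∀ i ∈ T, InP G p (x i)) :
    InP G p (∑ i ∈ T, x i) := by
  classical
  induction T using Finset.induction_on with
  | empty =>
    rw [Finset.sum_empty]
    exact InP.zero
  | insert i T hi ih =>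
    rw [Finset.sum_insert hi]
    exact (h i (Finset.mem_insert_self _ _)).add
      (ih fun j hj => h j (Finset.mem_insert_of_mem hj))

omit [Algebra ℚ S] in
/-- a one-sided inverse of a nilpotent element does not exist -/
lemma not_inv_of_nil (hne : p ≠ 0) {x t : S} (hpp : p * p = p) (hx : IsNilpotent x)
    (hpt : p * t = t) (h : x * t = p) : False := by
  obtain ⟨n, hn⟩ := hx
  have key : ∀ m : ℕ, x ^ m * (t ^ m * p) = if m = 0 then p else p := by
    intro m
    induction m with
    | zero => simp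
    | succ m ih =>
      rw [if_neg (Nat.succ_ne_zero m)]
      have e : x ^ (m + 1) * (t ^ (m + 1) * p) = x ^ m * ((x * t) * (t ^ m * p)) := by
        rw [pow_succ x, pow_succ' t]
        simp only [mul_assoc]
      have e2 : p * (t ^ m * p) = t ^ m * p := by
        cases m with
        | zero => rw [pow_zero, one_mul, hpp]
        | succ m =>
          rw [pow_succ', mul_assoc, ← mul_assoc p, hpt]
      rw [e, h, e2, ih]
      split_ifs <;> rfl
  have h1 := key n
  rw [hn, zero_mul] at h1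
  split_ifs at h1 <;> exact hne h1.symm

/-- elements of degree zero of `p S p` are nilpotent or invertible -/
lemma InP.nil_or_inv (hI : FinI tr η I) (hη : η ≠ 0) (hp : Prim G I p) {a : S} (ha : InP G p a) :
    IsNilpotent a ∨ ∃ w, InP G p w ∧ a * w = p ∧ w * a = p := by
  have haI : I a := by
    rw [← ha.l]
    exact hI.right _ _ hp.mem
  obtain ⟨k, u, hk, h1, h2⟩ := fit (hI.integral hη haI)
  obtain ⟨f1, f2⟩ := aeval_factor a u hk
  set ε := aeval a (u * X ^ k) with hε
  set w := aeval a (u * X ^ (k - 1)) with hw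
  have hdw : G.c 0 w = w := G.deg_zero_aeval ha.deg _
  have hdε : G.c 0 ε = ε := G.deg_zero_aeval ha.deg _
  rcases hp.min ε hdε h1 (by rw [f1, ← mul_assoc, ha.l]) (by rw [f2, mul_assoc, ha.r]) with h3 | h3
  · left
    exact ⟨k, by rw [h2, h3, mul_zero]⟩
  · right
    refine ⟨p * w * p, ⟨?_, ?_, ?_⟩, ?_, ?_⟩
    · exact G.deg_zero_mul (G.deg_zero_mul hp.deg hdw) hp.deg
    · rw [mul_assoc, ← mul_assoc, hp.idem]
    · rw [mul_assoc, hp.idem]
    · rw [mul_assoc, ← mul_assoc, ha.r, ← mul_assoc, ← f1, h3, hp.idem]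
    · rw [mul_assoc, ha.l, mul_assoc, ← f2, h3, hp.idem]

lemma InP.mul_nil (hI : FinI tr η I) (hη : η ≠ 0) (hp : Prim G I p) {a b : S} (ha : InP G p a)
    (hb : InP G p b) (hn : IsNilpotent a) : IsNilpotent (a * b) := by
  rcases (ha.mul hb).nil_or_inv hI hη hp with h | ⟨w, hw, h1, -⟩
  · exact h
  · exact (not_inv_of_nil hp.ne hp.idem hn (hb.mul hw).l (by rw [← mul_assoc, h1])).elim

lemma InP.add_nil (hI : FinI tr η I) (hη : η ≠ 0) (hp : Prim G I p) {a b : S} (ha : InP G p a)
    (hb : InP G p b) (hna : IsNilpotent a) (hnb : IsNilpotent b) : IsNilpotent (a + b) := by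
  rcases (ha.add hb).nil_or_inv hI hη hp with h | ⟨w, hw, h1, -⟩
  · exact h
  · exfalso
    have h2 : IsNilpotent (a * w) := ha.mul_nil hI hη hp hw hna
    -- `b w = p - a w` is invertible
    have h3 : b * w = p - a * w := by rw [← h1, add_mul]; abel
    obtain ⟨n, hn⟩ := h2
    set s := ∑ i ∈ Finset.range n, (a * w) ^ i with hs
    have h4 : (1 - a * w) * s = 1 := by
      rw [hs, mul_neg_geom_sum, hn, sub_zero]
    have h5 : b * w = (1 - a * w) * p → b * (w * (s * p)) = p := by
      intro h6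
      have hc : p * s = s * p := by
        rw [hs, Finset.mul_sum, Finset.sum_mul]
        refine Finset.sum_congr rfl fun i _ => ?_
        have h7 : Commute p (a * w) := by
          rw [Commute, SemiconjBy, (ha.mul hw).l, (ha.mul hw).r]
        exact (h7.pow_right i).eq
      calc b * (w * (s * p)) = (b * w) * (s * p) := by rw [mul_assoc]
        _ = (1 - a * w) * (p * s) * p := by rw [h6]; simp only [mul_assoc]
        _ = (1 - a * w) * s * (p * p) := by rw [hc]; simp only [mul_assoc]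
        _ = p := by rw [h4, one_mul, hp.idem]
    have h6 : b * w = (1 - a * w) * p := by
      rw [h3, sub_mul, one_mul, (ha.mul hw).r]
    refine not_inv_of_nil hp.ne hp.idem hnb (t := w * (s * p)) ?_ (h5 h6)
    rw [← mul_assoc, hw.l]

lemma sum_nil (hI : FinI tr η I) (hη : η ≠ 0) (hp : Prim G I p) {ι : Type*} (T : Finset ι)
    {x : ι → S} (h : ∀ i ∈ T, InP G p (x i)) (hn : ∀ i ∈ T, IsNilpotent (x i)) :
    IsNilpotent (∑ i ∈ T, x i) := by
  classical
  induction T using Finset.induction_on with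
  | empty =>
    rw [Finset.sum_empty]
    exact IsNilpotent.zero
  | insert i T hi ih =>
    rw [Finset.sum_insert hi]
    exact (h i (Finset.mem_insert_self _ _)).add_nil hI hη hp
      (InP.sum T fun j hj => h j (Finset.mem_insert_of_mem hj))
      (hn i (Finset.mem_insert_self _ _))
      (ih (fun j hj => h j (Finset.mem_insert_of_mem hj))
        (fun j hj => hn j (Finset.mem_insert_of_mem hj)))

/-- the components of the elements of `p S p` -/
lemma comp_l (hp : Prim G I p) {x : S} (h : p * x = x) (r : ℤ) : p * G.c r x = G.c r x := by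
  rw [← G.deg_zero_mul_c r hp.deg, h]

lemma comp_r (hp : Prim G I p) {x : S} (h : x * p = x) (r : ℤ) : G.c r x * p = G.c r x := by
  rw [← G.c_mul_deg_zero r x hp.deg, h]

/-- if the component of degree zero of `x` is nilpotent then so are those of its multiples -/
lemma zero_comp_nil (hI : FinI tr η I) (hη : η ≠ 0) (hp : Prim G I p) {x y : S}
    (hx1 : p * x = x) (hx2 : x * p = x) (hy1 : p * y = y) (hy2 : y * p = y)
    (hn : IsNilpotent (G.c 0 x)) : IsNilpotent (G.c 0 (x * y)) := by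
  have hin : ∀ r, InP G p (G.c r x * G.c (-r) y) := fun r =>
    ⟨G.c_deg_mul r x y, by rw [← mul_assoc, comp_l hp hx1],
      by rw [mul_assoc, comp_r hp hy2]⟩
  rw [G.c_zero_mul]
  refine sum_nil hI hη hp _ (fun r _ => hin r) fun r _ => ?_
  by_cases hr : r = 0
  · rw [hr, neg_zero]
    have hx0 : InP G p (G.c 0 x) := ⟨by rw [G.idem, if_pos rfl], comp_l hp hx1 0, comp_r hp hx2 0⟩
    have hy0 : InP G p (G.c 0 y) := ⟨by rw [G.idem, if_pos rfl], comp_l hp hy1 0, comp_r hp hy2 0⟩
    exact hx0.mul_nil hI hη hp hy0 hn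
  · rcases (hin r).nil_or_inv hI hη hp with h | ⟨w, hw, h1, -⟩
    · exact h
    · exfalso
      have hxn : IsNilpotent (G.c r x) := G.isNilpotent_of_deg hr (by rw [G.idem, if_pos rfl])
      refine not_inv_of_nil hp.ne hp.idem hxn (t := G.c (-r) y * w) ?_ (by rw [← mul_assoc, h1])
      rw [← mul_assoc, comp_l hp hy1]

/-- the trace only depends on the component of degree zero -/
lemma tr_c_zero (htr : ∀ r ≠ 0, ∀ x, tr (G.c r x) = 0) (x : S) : tr x = tr (G.c 0 x) := by
  by_cases h0 : (0 : ℤ) ∈ G.E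
  · conv_lhs => rw [← G.sum x]
    rw [map_sum, Finset.sum_eq_single (0 : ℤ)]
    · exact fun r _ hr => htr r hr x
    · exact fun h => (h h0).elim
  · rw [G.c_notMem h0, map_zero]
    conv_lhs => rw [← G.sum x]
    rw [map_sum]
    refine Finset.sum_eq_zero fun r hr => htr r ?_ x
    rintro rfl
    exact h0 hr

/-- an element of `p S p` whose component of degree zero is nilpotent is nilpotent -/
lemma nil_of_zero_comp (hI : FinI tr η I) (hη : η ≠ 0) (htr : ∀ r ≠ 0, ∀ x, tr (G.c r x) = 0)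
    (hp : Prim G I p) {x : S} (hx1 : p * x = x) (hx2 : x * p = x)
    (hn : IsNilpotent (G.c 0 x)) : IsNilpotent x := by
  have hpow : ∀ k : ℕ, p * x ^ (k + 1) = x ^ (k + 1) ∧ x ^ (k + 1) * p = x ^ (k + 1) := by
    intro k
    refine ⟨by rw [pow_succ', ← mul_assoc, hx1], by rw [pow_succ, mul_assoc, hx2]⟩
  have h0 : ∀ k : ℕ, IsNilpotent (G.c 0 (x ^ (k + 1))) := by
    intro k
    cases k with
    | zero => rwa [zero_add, pow_one]
    | succ k =>
      rw [pow_succ']
      exact zero_comp_nil hI hη hp hx1 hx2 (hpow k).1 (hpow k).2 hn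
  have hxI : I x := by
    rw [← hx1]
    exact hI.right _ _ hp.mem
  refine hI.nil_of_tr hη hxI fun k hk => ?_
  obtain ⟨j, rfl⟩ := Nat.exists_eq_add_of_le' hk
  rw [tr_c_zero (G := G) htr]
  refine hI.tr_of_nil ?_ (h0 j)
  rw [← comp_l hp (hpow j).1 0]
  exact hI.right _ _ hp.mem

/-- an element of `p S p` whose component of degree zero is not nilpotent is invertible -/
lemma inv_of_zero_comp (hI : FinI tr η I) (hη : η ≠ 0) (htr : ∀ r ≠ 0, ∀ x, tr (G.c r x) = 0)
    (hp : Prim G I p) {x : S} (hx1 : p * x = x) (hx2 : x * p = x)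
    (hn : ¬ IsNilpotent (G.c 0 x)) : ∃ t, p * t = t ∧ t * p = t ∧ x * t = p := by
  have hx0 : InP G p (G.c 0 x) := ⟨by rw [G.idem, if_pos rfl], comp_l hp hx1 0, comp_r hp hx2 0⟩
  rcases hx0.nil_or_inv hI hη hp with h | ⟨v, hv, h1, -⟩
  · exact (hn h).elim
  have h2 : IsNilpotent (p - x * v) := by
    refine nil_of_zero_comp hI hη htr hp ?_ ?_ ?_
    · rw [mul_sub, hp.idem, ← mul_assoc, hx1]
    · rw [sub_mul, hp.idem, mul_assoc, hv.r]
    · rw [map_sub, hp.deg, G.c_mul_deg_zero 0 x hv.deg, h1, sub_self]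
      exact IsNilpotent.zero
  obtain ⟨n, hn⟩ := h2
  set y := p - x * v with hy
  have hyl : p * y = y := by rw [hy, mul_sub, hp.idem, ← mul_assoc, hx1]
  have hyr : y * p = y := by rw [hy, sub_mul, hp.idem, mul_assoc, hv.r]
  set s := ∑ i ∈ Finset.range n, y ^ i with hs
  have h4 : (1 - y) * s = 1 := by
    rw [hs, mul_neg_geom_sum, hn, sub_zero]
  have hc : p * s = s * p := by
    rw [hs, Finset.mul_sum, Finset.sum_mul]
    refine Finset.sum_congr rfl fun i _ => ?_
    have h7 : Commute p y := by rw [Commute, SemiconjBy, hyl, hyr]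
    exact (h7.pow_right i).eq
  refine ⟨v * (s * p), ?_, ?_, ?_⟩
  · rw [← mul_assoc, hv.l]
  · rw [mul_assoc, mul_assoc, hp.idem]
  · have h5 : x * v = (1 - y) * p := by
      rw [sub_mul, one_mul, hyr, hy]
      abel
    calc x * (v * (s * p)) = (x * v) * (s * p) := by rw [mul_assoc]
      _ = (1 - y) * (p * s) * p := by rw [h5]; simp only [mul_assoc]
      _ = (1 - y) * s * (p * p) := by rw [hc]; simp only [mul_assoc]
      _ = p := by rw [h4, one_mul, hp.idem]

/-- an idempotent of degree zero of the ideal which is not orthogonal to `f` -/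
lemma exists_deg_zero (hI : FinI tr η I) (hη : η ≠ 0) (htr : ∀ r ≠ 0, ∀ x, tr (G.c r x) = 0)
    (hI0 : ∀ x, I x → I (G.c 0 x)) {f : S} (hf : f * f = f) (hf0 : f ≠ 0) (hfI : I f) :
    ∃ p : S, G.c 0 p = p ∧ p * p = p ∧ I p ∧ f * p ≠ 0 := by
  set h := G.c 0 f with hh
  have hdeg : G.c 0 h = h := by rw [hh, G.idem, if_pos rfl]
  have hhI : I h := hI0 f hfI
  obtain ⟨k, u, hk, h1, h2⟩ := fit (hI.integral hη hhI)
  obtain ⟨f1, -⟩ := aeval_factor h u hk
  set ε := aeval h (u * X ^ k) with hε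
  have hdε : G.c 0 ε = ε := G.deg_zero_aeval hdeg _
  have hεI : I ε := by
    rw [f1]
    exact hI.right _ _ hhI
  refine ⟨ε, hdε, h1, hεI, fun h3 => ?_⟩
  -- the component of degree zero of `f ε`
  have h4 : h * ε = 0 := by
    rw [hh, ← G.c_mul_deg_zero 0 f hdε, h3, map_zero]
  obtain ⟨j, rfl⟩ := Nat.exists_eq_add_of_le' hk
  have h5 : IsNilpotent h := ⟨j + 1, by rw [h2, pow_succ, mul_assoc, h4, mul_zero]⟩
  have h6 := hI.tr_of_nil hhI h5
  rw [hh, ← tr_c_zero (G := G) htr] at h6
  obtain ⟨i, hi, hi'⟩ := hI.tr_idem hfI hf hf0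
  rw [h6] at hi'
  have h7 : (i : ℚ) ≠ 0 := by
    have : i ≠ 0 := by omega
    exact_mod_cast this
  have h8 : (i : ℚ) * η = 0 := by linarith
  exact (mul_ne_zero h7 hη) h8

/-- the existence of the idempotent of degree zero -/
lemma exists_prim (hI : FinI tr η I) (hη : η ≠ 0) (htr : ∀ r ≠ 0, ∀ x, tr (G.c r x) = 0)
    (hI0 : ∀ x, I x → I (G.c 0 x)) {f : S} (hf : f * f = f) (hf0 : f ≠ 0) (hfI : I f) :
    ∃ p : S, Prim G I p ∧ f * p ≠ 0 := by
  classical
  have key : ∀ n : ℕ, ∀ p : S, G.c 0 p = p → p * p = p → I p → f * p ≠ 0 → tr p = -(n * η) →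
      ∃ p : S, Prim G I p ∧ f * p ≠ 0 := by
    intro n
    induction n using Nat.strong_induction_on with
    | _ n ih =>
      intro p h1 h2 h3 h4 h5
      have hne : p ≠ 0 := by
        rintro rfl
        exact h4 (mul_zero f)
      by_cases hmin : ∀ ε : S, G.c 0 ε = ε → ε * ε = ε → p * ε = ε → ε * p = ε → ε = 0 ∨ ε = p
      · exact ⟨p, ⟨h1, h2, hne, h3, hmin⟩, h4⟩
      push Not at hmin
      obtain ⟨ε, e1, e2, e3, e4, e5, e6⟩ := hmin
      have e7 : I ε := by
        rw [← e3]
        exact hI.right _ _ h3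
      have d2 : (p - ε) * (p - ε) = p - ε := by
        rw [sub_mul, mul_sub, mul_sub, h2, e2, e3, e4, sub_self, sub_zero]
      have d1 : G.c 0 (p - ε) = p - ε := by rw [map_sub, h1, e1]
      have d3 : I (p - ε) := hI.sub h3 e7
      have d0 : p - ε ≠ 0 := fun h => e6 (sub_eq_zero.1 h).symm
      obtain ⟨i, hi, hi'⟩ := hI.tr_idem e7 e2 e5
      obtain ⟨j, hj, hj'⟩ := hI.tr_idem d3 d2 d0
      have hsum : n = i + j := by
        have h6 : tr p = tr ε + tr (p - ε) := by rw [map_sub]; ring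
        rw [h5, hi', hj'] at h6
        have h7 : ((n : ℚ) - (i + j)) * η = 0 := by linarith
        have h8 := (mul_eq_zero.1 h7).resolve_right hη
        have h9 : (n : ℚ) = ((i + j : ℕ) : ℚ) := by
          push_cast
          linarith
        exact_mod_cast h9
      by_cases h6 : f * ε = 0
      · refine ih j (by omega) (p - ε) d1 d2 d3 ?_ hj'
        rw [mul_sub, h6, sub_zero]
        exact h4
      · exact ih i (by omega) ε e1 e2 e7 h6 hi'
  obtain ⟨p, h1, h2, h3, h4⟩ := exists_deg_zero hI hη htr hI0 hf hf0 hfI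
  obtain ⟨n, hn⟩ := hI.tr_idem' h3 h2
  exact key n p h1 h2 h3 h4 hn

/-- **A finite-dimensional idempotent contains an idempotent of degree zero.** -/
theorem main_S (hI : FinI tr η I) (hη : η ≠ 0) (htr : ∀ r ≠ 0, ∀ x, tr (G.c r x) = 0)
    (hI0 : ∀ x, I x → I (G.c 0 x)) (hsym : ∀ a b, tr (a * b) = tr (b * a))
    (hnd : ∀ a, (∀ γ, tr (a * γ) = 0) → a = 0) {f : S} (hf : f * f = f) (hf0 : f ≠ 0)
    (hfI : I f) :
    ∃ p a b : S, Prim G I p ∧ p * a = a ∧ a * f = a ∧ f * b = b ∧ b * p = b ∧ a * b = p := by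
  obtain ⟨p, hp, hfp⟩ := exists_prim (G := G) hI hη htr hI0 hf hf0 hfI
  obtain ⟨z, hz⟩ : ∃ z, tr (f * p * z) ≠ 0 := by
    by_contra h
    push Not at h
    exact hfp (hnd _ h)
  set w := p * z * f * p with hw
  have hwn : ¬ IsNilpotent w := by
    rintro ⟨n, hn⟩
    set x := f * p * z * f with hx
    have key : ∀ k : ℕ, x ^ (k + 1) = f * p * w ^ k * (p * z * f) := by
      intro k
      induction k with
      | zero =>
        rw [zero_add, pow_one, pow_zero, mul_one, hx]
        calc f * p * z * f = f * (p * p) * z * f := by rw [hp.idem]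
          _ = f * p * (p * z * f) := by simp only [mul_assoc]
      | succ k ih =>
        rw [pow_succ, ih, hx, pow_succ w, hw]
        calc f * p * (p * z * f * p) ^ k * (p * z * f) * (f * p * z * f)
            = f * p * (p * z * f * p) ^ k * (p * z * (f * f) * p * z * f) := by
              simp only [mul_assoc]
          _ = f * p * (p * z * f * p) ^ k * (p * z * f * (p * p) * z * f) := by
              rw [hf, hp.idem]
          _ = f * p * ((p * z * f * p) ^ k * (p * z * f * p)) * (p * z * f) := by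
              simp only [mul_assoc]
    have hxn : IsNilpotent x := ⟨n + 1, by rw [key, hn, mul_zero, zero_mul]⟩
    have h1 := hI.tr_of_nil (a := x) (hI.left _ _ hfI) hxn
    apply hz
    rw [← h1, hx, hsym (f * p * z) f]
    simp only [← mul_assoc, hf]
  have hw1 : p * w = w := by
    rw [hw]
    simp only [← mul_assoc, hp.idem]
  have hw2 : w * p = w := by
    rw [hw, mul_assoc _ p p, hp.idem]
  have hw0 : ¬ IsNilpotent (G.c 0 w) := fun h => hwn (nil_of_zero_comp hI hη htr hp hw1 hw2 h)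
  obtain ⟨t, t1, t2, t3⟩ := inv_of_zero_comp hI hη htr hp hw1 hw2 hw0
  refine ⟨p, p * z * f, f * (p * t), hp, ?_, ?_, ?_, ?_, ?_⟩
  · simp only [← mul_assoc, hp.idem]
  · rw [mul_assoc, hf]
  · rw [← mul_assoc, hf]
  · rw [mul_assoc, mul_assoc, t2]
  · calc p * z * f * (f * (p * t)) = p * z * (f * f) * p * t := by simp only [mul_assoc]
      _ = w * t := by rw [hf, hw]
      _ = p := t3

end Pool.Agent.Zk90.KG
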