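import Pool.Agent.N174.KN.Alg
import Pool.Agent.Zk90.KG.C

/-!
# Graded algebras with a trace: finite-dimensional idempotents are sums of idempotents of degree
zero
-/

set_option autoImplicit false

namespace Pool.Agent.Zk90.KG

open Pool.Agent.TH829.Kim Pool.Agent.N174.KN

universe w

variable {R : Type w} [Ring R] [Algebra ℚ R] {tr : R →ₗ[ℚ] ℚ}

/-- the radical as a two-sided ideal -/
def radI (tr : R →ₗ[ℚ] ℚ) (hsym : ∀ a b, tr (a * b) = tr (b * a)) : Ideal R where
  carrier := {a | InRad tr a}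
  zero_mem' := fun γ => by rw [zero_mul, map_zero]
  add_mem' := fun {_ _} h1 h2 => InRad.add h1 h2
  smul_mem' := fun c _ h1 => InRad.mul_left hsym h1 c

lemma radI_twoSided (hsym : ∀ a b, tr (a * b) = tr (b * a)) : (radI tr hsym).IsTwoSided :=
  ⟨fun {_} b h1 => InRad.mul_right h1 b⟩

/-- the quotient by the radical -/
structure Quot' {R : Type*} [Ring R] [Algebra ℚ R] (tr : R →ₗ[ℚ] ℚ) (S : Type*) [Ring S]
    [Algebra ℚ S] where
  π : R →ₐ[ℚ] S
  σ : S →ₗ[ℚ] R
  πσ : ∀ s, π (σ s) = s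
  ker : ∀ x, π x = 0 ↔ InRad tr x

lemma exists_quot (hsym : ∀ a b, tr (a * b) = tr (b * a)) :
    ∃ (S : Type w) (_ : Ring S) (_ : Algebra ℚ S), Nonempty (Quot' tr S) := by
  have := radI_twoSided (tr := tr) hsym
  let π : R →ₐ[ℚ] R ⧸ radI tr hsym := Ideal.Quotient.mkₐ ℚ (radI tr hsym)
  have hπ : Function.Surjective π.toLinearMap := Ideal.Quotient.mk_surjective
  obtain ⟨σ, hσ⟩ := LinearMap.exists_rightInverse_of_surjective π.toLinearMap
    (LinearMap.range_eq_top.2 hπ)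
  refine ⟨R ⧸ radI tr hsym, inferInstance, inferInstance, ⟨⟨π, σ, fun s => ?_, fun x => ?_⟩⟩⟩
  · exact LinearMap.congr_fun hσ s
  · exact Ideal.Quotient.eq_zero_iff_mem

namespace Quot'

variable {S : Type*} [Ring S] [Algebra ℚ S] (Q : Quot' tr S)

lemma σπ (x : R) : InRad tr (Q.σ (Q.π x) - x) := by
  rw [← Q.ker, map_sub, Q.πσ, sub_self]

lemma exists_rep (s : S) : ∃ x, Q.π x = s := ⟨_, Q.πσ s⟩

/-- the induced trace -/
noncomputable def trS : S →ₗ[ℚ] ℚ := tr.comp Q.σ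

lemma tr_of_inRad {x : R} (h : InRad tr x) : tr x = 0 := by
  have := h 1
  rwa [mul_one] at this

lemma trS_π (x : R) : Q.trS (Q.π x) = tr x := by
  have h1 := tr_of_inRad (Q.σπ x)
  rw [map_sub, sub_eq_zero] at h1
  exact h1

lemma trS_comm (hsym : ∀ a b, tr (a * b) = tr (b * a)) (a b : S) :
    Q.trS (a * b) = Q.trS (b * a) := by
  obtain ⟨x, rfl⟩ := Q.exists_rep a
  obtain ⟨y, rfl⟩ := Q.exists_rep b
  rw [← map_mul, ← map_mul, Q.trS_π, Q.trS_π, hsym]

lemma trS_nd (a : S) (h : ∀ γ, Q.trS (a * γ) = 0) : a = 0 := by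
  obtain ⟨x, rfl⟩ := Q.exists_rep a
  rw [Q.ker]
  intro γ
  have := h (Q.π γ)
  rwa [← map_mul, Q.trS_π] at this

lemma K_π (η : ℚ) (n : ℕ) (a : Fin (n + 1) → R) :
    K Q.trS η n (fun i => Q.π (a i)) = Q.π (K tr η n a) := by
  induction n with
  | zero => rfl
  | succ n ih =>
    rw [K_succ, K_succ, map_add, map_smul, map_smul, map_sum, Q.trS_π, ih]
    congr 2
    apply Finset.sum_congr rfl
    intro i _
    rw [← ih]
    congr 1
    funext j
    by_cases hj : j = i
    · subst hj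
      rw [Function.update_self, Function.update_self, map_mul]
    · rw [Function.update_of_ne hj, Function.update_of_ne hj]

lemma F_π (η : ℚ) (n : ℕ) (a : Fin n → R) :
    F Q.trS η n (fun i => Q.π (a i)) = F tr η n a := by
  induction n with
  | zero => rfl
  | succ n ih =>
    rw [F_succ, F_succ, Q.trS_π, ih]
    congr 2
    apply Finset.sum_congr rfl
    intro i _
    rw [← ih (Function.update (fun i => a i.succ) i (a 0 * a i.succ))]
    congr 1
    funext j
    by_cases hj : j = i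
    · subst hj
      rw [Function.update_self, Function.update_self, map_mul]
    · rw [Function.update_of_ne hj, Function.update_of_ne hj]

/-- the image of the ideal -/
lemma finI {η : ℚ} {I : R → Prop} (hI : FinI tr η I) :
    FinI Q.trS η (fun s => ∃ x, I x ∧ Q.π x = s) where
  zero := ⟨0, hI.zero, map_zero _⟩
  add := by
    rintro _ _ ⟨x, hx, rfl⟩ ⟨y, hy, rfl⟩
    exact ⟨x + y, hI.add _ _ hx hy, map_add _ _ _⟩
  left := by
    rintro a _ ⟨y, hy, rfl⟩
    obtain ⟨x, rfl⟩ := Q.exists_rep a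
    exact ⟨x * y, hI.left _ _ hy, map_mul _ _ _⟩
  right := by
    rintro _ b ⟨x, hx, rfl⟩
    obtain ⟨y, rfl⟩ := Q.exists_rep b
    exact ⟨x * y, hI.right _ _ hx, map_mul _ _ _⟩
  K_eq := by
    rintro _ ⟨x, hx, rfl⟩
    obtain ⟨n, hn⟩ := hI.K_eq x hx
    exact ⟨n, by rw [Q.K_π η n (fun _ => x), hn, map_zero]⟩
  F_eq := by
    rintro _ ⟨x, hx, rfl⟩
    obtain ⟨n, hn⟩ := hI.F_eq x hx
    refine ⟨n, fun k hk => ?_⟩
    have h1 := Q.F_π η (n + 1) (fun _ => x ^ k)
    rw [hn k hk] at h1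
    simp only [map_pow] at h1
    exact h1

/-! ### The grading of the quotient -/

variable {𝒢 : ℤ → Submodule ℚ R} [GradedAlgebra 𝒢]

/-- the projections to the components -/
noncomputable def cS (𝒢 : ℤ → Submodule ℚ R) [GradedAlgebra 𝒢] (r : ℤ) : S →ₗ[ℚ] S :=
  (Q.π.toLinearMap.comp (cp 𝒢 r)).comp Q.σ

lemma cS_π (htr : ∀ r ≠ 0, ∀ a ∈ 𝒢 r, tr a = 0) (r : ℤ) (x : R) :
    Q.cS 𝒢 r (Q.π x) = Q.π (cp 𝒢 r x) := by
  have h1 := inRad_cp htr (Q.σπ x) r
  rw [← Q.ker, map_sub, map_sub, sub_eq_zero] at h1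
  exact h1

lemma sum_cp {E : Finset ℤ} (hE : ∀ r ∉ E, ∀ a ∈ 𝒢 r, a = 0) (x : R) :
    ∑ r ∈ E, cp 𝒢 r x = x := by
  classical
  obtain ⟨T, -, hT⟩ := exists_sum_cp (𝒢 := 𝒢) x
  have h1 : ∑ r ∈ E ∪ T, cp 𝒢 r x = ∑ r ∈ E, cp 𝒢 r x := by
    refine (Finset.sum_subset Finset.subset_union_left ?_).symm
    intro r _ hr
    exact hE r hr _ (cp_mem r x)
  rw [← h1]
  conv_rhs => rw [hT]
  refine (Finset.sum_subset Finset.subset_union_right ?_).symm
  intro r _ hr
  conv_lhs => rw [hT]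
  rw [map_sum]
  refine Finset.sum_eq_zero fun s hs => cp_ne (cp_mem s x) ?_
  rintro rfl
  exact hr hs

/-- the grading of the quotient -/
noncomputable def gr (htr : ∀ r ≠ 0, ∀ a ∈ 𝒢 r, tr a = 0) (E : Finset ℤ)
    (hE : ∀ r ∉ E, ∀ a ∈ 𝒢 r, a = 0) : Gr S where
  c := Q.cS 𝒢
  E := E
  sum s := by
    obtain ⟨x, rfl⟩ := Q.exists_rep s
    simp only [Q.cS_π htr]
    rw [← map_sum, sum_cp hE]
  idem r s x := by
    obtain ⟨x, rfl⟩ := Q.exists_rep x
    rw [Q.cS_π htr, Q.cS_π htr]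
    split_ifs with h
    · rw [h, cp_same (cp_mem s x)]
    · rw [cp_ne (cp_mem s x) (Ne.symm h), map_zero]
  mul r s t x y := by
    obtain ⟨x, rfl⟩ := Q.exists_rep x
    obtain ⟨y, rfl⟩ := Q.exists_rep y
    rw [Q.cS_π htr, Q.cS_π htr, ← map_mul, Q.cS_π htr]
    have h1 : cp 𝒢 r x * cp 𝒢 s y ∈ 𝒢 (r + s) := SetLike.mul_mem_graded (cp_mem r x) (cp_mem s y)
    split_ifs with h
    · rw [h, cp_same h1]
    · rw [cp_ne h1 (Ne.symm h), map_zero]
  one := by
    rw [← map_one Q.π, Q.cS_π htr, cp_same SetLike.GradedOne.one_mem]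

end Quot'

variable {𝒢 : ℤ → Submodule ℚ R} [GradedAlgebra 𝒢] {η : ℚ} {I : R → Prop}

/-- `q` is a nonzero idempotent of degree zero which does not contain proper idempotents of degree
zero -/
structure PrimR (𝒢 : ℤ → Submodule ℚ R) (q : R) : Prop where
  deg : q ∈ 𝒢 0
  idem : q * q = q
  ne : q ≠ 0
  min : ∀ ε ∈ 𝒢 0, ε * ε = ε → q * ε = ε → ε * q = ε → ε = 0 ∨ ε = q

omit [Algebra ℚ R] in
lemma idem_eq_zero {e : R} (he : e * e = e) (hn : IsNilpotent e) : e = 0 := by
  obtain ⟨n, hn⟩ := hn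
  have h2 : ∀ k : ℕ, e ^ (k + 1) = e := by
    intro k
    induction k with
    | zero => rw [zero_add, pow_one]
    | succ k ih => rw [pow_succ, ih, he]
  rw [← h2 n, pow_succ, hn, zero_mul]

/-- **A nonzero idempotent of the ideal has a nonzero direct summand which is isomorphic to an
idempotent of degree zero.** -/
theorem exists_piece (hI : FinI tr η I) (hη : η ≠ 0) (hI0 : ∀ x, I x → I (cp 𝒢 0 x))
    (hsym : ∀ a b, tr (a * b) = tr (b * a)) (htr : ∀ r ≠ 0, ∀ a ∈ 𝒢 r, tr a = 0) (E : Finset ℤ)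
    (hE : ∀ r ∉ E, ∀ a ∈ 𝒢 r, a = 0) {f : R} (hf : f * f = f) (hf0 : f ≠ 0) (hfI : I f) :
    ∃ q u v : R, PrimR 𝒢 q ∧ v * u = q ∧ f * u = u ∧ u * q = u ∧ q * v = v ∧ v * f = v := by
  obtain ⟨S, i1, i2, ⟨Q⟩⟩ := exists_quot (tr := tr) hsym
  have hnil : ∀ x, I x → InRad tr x → IsNilpotent x := fun x h1 h2 =>
    hI.nil_of_tr hη h1 fun k hk => InRad.tr_pow h2 k hk
  have hf0' : Q.π f ≠ 0 := by
    intro h
    exact hf0 (idem_eq_zero hf (hnil f hfI ((Q.ker f).1 h)))
  obtain ⟨p, a, b, hP, a1, a2, b1, b2, ab⟩ := main_S (G := Q.gr htr E hE) (tr := Q.trS)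
    (Q.finI hI) hη (fun r hr s => by
      obtain ⟨x, rfl⟩ := Q.exists_rep s
      change Q.trS (Q.cS 𝒢 r (Q.π x)) = 0
      rw [Q.cS_π htr, Q.trS_π]
      exact htr r hr _ (cp_mem r x))
    (by
      rintro _ ⟨x, hx, rfl⟩
      refine ⟨cp 𝒢 0 x, hI0 x hx, ?_⟩
      exact (Q.cS_π htr 0 x).symm)
    (Q.trS_comm hsym) Q.trS_nd (f := Q.π f) (by rw [← map_mul, hf]) hf0' ⟨f, hfI, rfl⟩
  obtain ⟨a₀, rfl⟩ := Q.exists_rep a
  obtain ⟨b₀, rfl⟩ := Q.exists_rep b
  have p1' : Q.cS 𝒢 0 p = p := hP.deg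
  have p2 := hP.ne
  have p3 := hP.idem
  set w := a₀ * f * b₀ with hw
  have hwI : I w := hI.right _ _ (hI.left _ _ hfI)
  have hπw : Q.π w = p := by
    rw [hw, map_mul, map_mul, a2, ab]
  set p' := cp 𝒢 0 w with hp'
  have hpI : I p' := hI0 w hwI
  have hπp' : Q.π p' = p := by
    rw [hp', ← Q.cS_π htr, hπw, p1']
  have hz0 : InRad tr (p' * p' - p') := by
    rw [← Q.ker, map_sub, map_mul, hπp', p3, sub_self]
  have hzI : I (p' * p' - p') := hI.sub (hI.left _ _ hpI) hpI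
  obtain ⟨φ, c, hq1, hq2⟩ := exists_lift_poly (hnil _ hzI hz0)
  set q := Polynomial.aeval p' φ with hq
  have hq3 : q = p' + (p' * p' - p') * c := by rw [← hq2]; abel
  have hqI : I q := by
    rw [hq3]
    exact hI.add _ _ hpI (hI.right _ _ hzI)
  have hπq : Q.π q = p := by
    rw [hq3, map_add, map_mul, (Q.ker _).2 hz0, zero_mul, add_zero, hπp']
  have hq0 : q ∈ 𝒢 0 := by
    have h7 : Algebra.adjoin ℚ {p'} ≤ SetLike.GradeZero.subalgebra 𝒢 :=
      Algebra.adjoin_le (by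
        rw [Set.singleton_subset_iff]
        exact cp_mem 0 w)
    exact h7 (Polynomial.aeval_mem_adjoin_singleton ℚ p')
  set j := q * w * q - q with hj
  have hj0 : InRad tr j := by
    rw [← Q.ker, hj, map_sub, map_mul, map_mul, hπq, hπw, p3, p3, sub_self]
  have hjn : IsNilpotent j := hnil j (hI.sub (hI.left _ _ hqI) hqI) hj0
  have hqj : q * j = j := by
    rw [hj, mul_sub, ← mul_assoc, ← mul_assoc, hq1]
  obtain ⟨s, hs⟩ : ∃ s, (1 + j) * s = 1 := by
    obtain ⟨U, hU⟩ := hjn.isUnit_one_add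
    exact ⟨↑U⁻¹, by rw [← hU, Units.mul_inv]⟩
  have hqws : q * w * q * s = q := by
    have h1 : q * w * q = q * (1 + j) := by
      rw [mul_add, mul_one, hqj, hj]
      abel
    rw [h1, mul_assoc, hs, mul_one]
  have hqne : q ≠ 0 := by
    rintro h
    rw [h, map_zero] at hπq
    exact p2 hπq.symm
  have hqmin : ∀ ε ∈ 𝒢 0, ε * ε = ε → q * ε = ε → ε * q = ε → ε = 0 ∨ ε = q := by
    intro ε e0 e1 e2 e3
    have heI : I ε := by
      rw [← e2]
      exact hI.right _ _ hqI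
    have e4 : Q.cS 𝒢 0 (Q.π ε) = Q.π ε := by
      rw [Q.cS_π htr, cp_same e0]
    rcases hP.min (Q.π ε) e4 (by rw [← map_mul, e1]) (by rw [← hπq, ← map_mul, e2])
      (by rw [← hπq, ← map_mul, e3]) with h | h
    · left
      exact idem_eq_zero e1 (hnil ε heI ((Q.ker ε).1 h))
    · right
      have h5 : (q - ε) * (q - ε) = q - ε := by
        rw [sub_mul, mul_sub, mul_sub, hq1, e1, e2, e3, sub_self, sub_zero]
      have h6 : InRad tr (q - ε) := by rw [← Q.ker, map_sub, hπq, h, sub_self]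
      exact (sub_eq_zero.1 (idem_eq_zero h5 (hnil _ (hI.sub hqI heI) h6))).symm
  refine ⟨q, f * b₀ * q * s * q, q * (a₀ * f), ⟨hq0, hq1, hqne, hqmin⟩, ?_, ?_, ?_, ?_, ?_⟩
  · calc q * (a₀ * f) * (f * b₀ * q * s * q) = q * (a₀ * (f * f) * b₀) * q * s * q := by
          simp only [mul_assoc]
      _ = q := by rw [hf, ← hw, hqws, hq1]
  · simp only [← mul_assoc, hf]
  · rw [mul_assoc, hq1]
  · simp only [← mul_assoc, hq1]
  · rw [mul_assoc, mul_assoc, hf]

/-- A family of idempotents `q i` of degree zero together with isomorphisms of the direct sum of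
their images with the image of `f`. -/
structure Fam' (𝒢 : ℤ → Submodule ℚ R) (f : R) (N : ℕ) (q u v : Fin N → R) : Prop where
  prim : ∀ i, PrimR 𝒢 (q i)
  sum : f = ∑ i, u i * v i
  orth : ∀ i j, v i * u j = if i = j then q i else 0
  fu : ∀ i, f * u i = u i
  uq : ∀ i, u i * q i = u i
  qv : ∀ i, q i * v i = v i
  vf : ∀ i, v i * f = v i

/-- **An idempotent of the ideal is a sum of idempotents which are isomorphic to idempotents of
degree zero.** -/
theorem exists_family (hI : FinI tr η I) (hη : η ≠ 0) (hI0 : ∀ x, I x → I (cp 𝒢 0 x))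
    (hsym : ∀ a b, tr (a * b) = tr (b * a)) (htr : ∀ r ≠ 0, ∀ a ∈ 𝒢 r, tr a = 0) (E : Finset ℤ)
    (hE : ∀ r ∉ E, ∀ a ∈ 𝒢 r, a = 0) {f : R} (hf : f * f = f) (hfI : I f) :
    ∃ (N : ℕ) (q u v : Fin N → R), Fam' 𝒢 f N q u v := by
  have key : ∀ n : ℕ, ∀ f : R, f * f = f → I f → tr f = -(n * η) →
      ∃ (N : ℕ) (q u v : Fin N → R), Fam' 𝒢 f N q u v := by
    intro n
    induction n using Nat.strong_induction_on with
    | _ n ih =>
    intro f hf hfI hn
    by_cases hf0 : f = 0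
    · subst hf0
      exact ⟨0, Fin.elim0, Fin.elim0, Fin.elim0, ⟨fun i => i.elim0,
        by rw [Finset.univ_eq_empty, Finset.sum_empty], fun i => i.elim0, fun i => i.elim0,
        fun i => i.elim0, fun i => i.elim0, fun i => i.elim0⟩⟩
    obtain ⟨q, u, v, hq, h4, h5, h6, h7, h8⟩ :=
      exists_piece hI hη hI0 hsym htr E hE hf hf0 hfI
    have h2 := hq.ne
    have h3 := hq.idem
    set g := u * v with hg
    have hgg : g * g = g := by
      rw [hg, mul_assoc, ← mul_assoc v, h4, h7]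
    have hfg : f * g = g := by rw [hg, ← mul_assoc, h5]
    have hgf : g * f = g := by rw [hg, mul_assoc, h8]
    have hf2 : (f - g) * (f - g) = f - g := by
      rw [mul_sub, sub_mul, sub_mul, hf, hfg, hgf, hgg, sub_self, sub_zero]
    have hff2 : f * (f - g) = f - g := by rw [mul_sub, hf, hfg]
    have hf2f : (f - g) * f = f - g := by rw [sub_mul, hf, hgf]
    have hg0 : g ≠ 0 := by
      intro h
      apply h2
      have e : q = v * g * u := by
        rw [hg]
        calc q = (v * u) * (v * u) := by rw [h4, h3]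
          _ = v * (u * v) * u := by simp only [mul_assoc]
      rw [e, h, mul_zero, zero_mul]
    have hgI : I g := by
      rw [← hfg]
      exact hI.right _ _ hfI
    have hfgI : I (f - g) := hI.sub hfI hgI
    obtain ⟨i, hi, hi'⟩ := hI.tr_idem hgI hgg hg0
    obtain ⟨j, hj⟩ := hI.tr_idem' hfgI hf2
    have hsum : n = i + j := by
      have h9 : tr f = tr g + tr (f - g) := by rw [map_sub]; ring
      rw [hn, hi', hj] at h9
      have h10 : ((n : ℚ) - (i + j)) * η = 0 := by linarith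
      have h11 := (mul_eq_zero.1 h10).resolve_right hη
      have h12 : (n : ℚ) = ((i + j : ℕ) : ℚ) := by
        push_cast
        linarith
      exact_mod_cast h12
    obtain ⟨N, q', u', v', hF⟩ := ih j (by omega) (f - g) hf2 hfgI hj
    have hu' : ∀ i, f * u' i = u' i := fun i => by
      rw [← hF.fu i, ← mul_assoc, hff2]
    have hv' : ∀ i, v' i * f = v' i := fun i => by
      rw [← hF.vf i, mul_assoc, hf2f]
    have e1 : ∀ i, v * u' i = 0 := by
      intro i
      rw [← hF.fu i, ← mul_assoc, mul_sub, h8, hg, ← mul_assoc, h4, h7, sub_self, zero_mul]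
    have e2 : ∀ i, v' i * u = 0 := by
      intro i
      rw [← hF.vf i, mul_assoc, sub_mul, h5, hg, mul_assoc u, h4, h6, sub_self, mul_zero]
    refine ⟨N + 1, Fin.cons q q', Fin.cons u u', Fin.cons v v', ⟨?_, ?_, ?_, ?_, ?_, ?_, ?_⟩⟩
    · intro i
      refine Fin.cases ?_ (fun i => ?_) i
      · exact hq
      · exact hF.prim i
    · rw [Fin.sum_univ_succ]
      simp only [Fin.cons_zero, Fin.cons_succ]
      rw [← hF.sum, ← hg]
      abel
    · intro i j
      refine Fin.cases ?_ (fun i => ?_) i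
      · refine Fin.cases ?_ (fun j => ?_) j
        · simp only [Fin.cons_zero, if_true]
          exact h4
        · simp only [Fin.cons_zero, Fin.cons_succ]
          rw [e1, if_neg (Fin.succ_ne_zero j).symm]
      · refine Fin.cases ?_ (fun j => ?_) j
        · simp only [Fin.cons_zero, Fin.cons_succ]
          rw [e2, if_neg (Fin.succ_ne_zero i)]
        · simp only [Fin.cons_succ, Fin.succ_inj]
          exact hF.orth i j
    · intro i
      refine Fin.cases ?_ (fun i => ?_) i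
      · exact h5
      · exact hu' i
    · intro i
      refine Fin.cases ?_ (fun i => ?_) i
      · exact h6
      · exact hF.uq i
    · intro i
      refine Fin.cases ?_ (fun i => ?_) i
      · exact h7
      · exact hF.qv i
    · intro i
      refine Fin.cases ?_ (fun i => ?_) i
      · exact h8
      · exact hv' i
  obtain ⟨n, hn⟩ := hI.tr_idem' hfI hf
  exact key n f hf hfI hn

/-! ### The component of degree zero as a combination of images under the scaling automorphism -/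

/-- the scaling automorphism -/
noncomputable def sc (𝒢 : ℤ → Submodule ℚ R) [GradedAlgebra 𝒢] : R →ₐ[ℚ] R := scale 𝒢 2 two_ne_zero

/-- the iterates of the scaling automorphism -/
noncomputable def scp (𝒢 : ℤ → Submodule ℚ R) [GradedAlgebra 𝒢] : ℕ → R →ₐ[ℚ] R
  | 0 => AlgHom.id ℚ R
  | j + 1 => (sc 𝒢).comp (scp 𝒢 j)

lemma scp_of_mem {r : ℤ} {a : R} (ha : a ∈ 𝒢 r) (j : ℕ) : scp 𝒢 j a = ((2 : ℚ) ^ r) ^ j • a := by
  induction j with
  | zero =>
    rw [pow_zero, one_smul]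
    rfl
  | succ j ih =>
    change scale 𝒢 2 two_ne_zero (scp 𝒢 j a) = _
    rw [ih, map_smul, scale_of_mem ha, smul_smul, pow_succ]

/-- the component of degree zero is a combination of images under the scaling automorphism -/
lemma cp_zero_eq (w : R) : ∃ (M : ℕ) (c : ℕ → ℚ),
    cp 𝒢 0 w = ∑ j ∈ Finset.range M, c j • scp 𝒢 j w := by
  classical
  obtain ⟨T, hT0, hT⟩ := exists_sum_cp (𝒢 := 𝒢) w
  -- the interpolation polynomial
  let Q : Polynomial ℚ := ∏ r ∈ T.erase 0, (Polynomial.X - Polynomial.C ((2 : ℚ) ^ r))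
  have hQ1 : Q.eval 1 ≠ 0 := by
    rw [Polynomial.eval_prod, Finset.prod_ne_zero_iff]
    intro r hr
    rw [Polynomial.eval_sub, Polynomial.eval_X, Polynomial.eval_C, sub_ne_zero]
    intro h
    exact (Finset.mem_erase.1 hr).1
      ((zpow_eq_one_iff_right₀ (by norm_num) (by norm_num)).1 h.symm)
  have hQ0 : ∀ r ∈ T.erase 0, Q.eval ((2 : ℚ) ^ r) = 0 := by
    intro r hr
    rw [Polynomial.eval_prod]
    refine Finset.prod_eq_zero hr ?_
    rw [Polynomial.eval_sub, Polynomial.eval_X, Polynomial.eval_C, sub_self]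
  have hsum : ∑ j ∈ Finset.range (Q.natDegree + 1), Q.coeff j • scp 𝒢 j w =
      (Q.eval 1) • cp 𝒢 0 w := by
    have h1 : ∀ j, scp 𝒢 j w = ∑ r ∈ T, ((2 : ℚ) ^ r) ^ j • cp 𝒢 r w := by
      intro j
      conv_lhs => rw [hT]
      rw [map_sum]
      exact Finset.sum_congr rfl fun r _ => scp_of_mem (cp_mem r w) j
    calc ∑ j ∈ Finset.range (Q.natDegree + 1), Q.coeff j • scp 𝒢 j w
        = ∑ j ∈ Finset.range (Q.natDegree + 1), ∑ r ∈ T,
            (Q.coeff j * ((2 : ℚ) ^ r) ^ j) • cp 𝒢 r w := by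
          refine Finset.sum_congr rfl fun j _ => ?_
          rw [h1, Finset.smul_sum]
          exact Finset.sum_congr rfl fun r _ => smul_smul _ _ _
      _ = ∑ r ∈ T, (Q.eval ((2 : ℚ) ^ r)) • cp 𝒢 r w := by
          rw [Finset.sum_comm]
          refine Finset.sum_congr rfl fun r _ => ?_
          rw [← Finset.sum_smul, Polynomial.eval_eq_sum_range]
      _ = (Q.eval 1) • cp 𝒢 0 w := by
          rw [← Finset.add_sum_erase _ _ hT0, zpow_zero, Finset.sum_eq_zero, add_zero]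
          intro r hr
          rw [hQ0 r hr, zero_smul]
  refine ⟨Q.natDegree + 1, fun j => (Q.eval 1)⁻¹ * Q.coeff j, ?_⟩
  have h2 : cp 𝒢 0 w = (Q.eval 1)⁻¹ •
      ∑ j ∈ Finset.range (Q.natDegree + 1), Q.coeff j • scp 𝒢 j w := by
    rw [hsum, smul_smul, inv_mul_cancel₀ hQ1, one_smul]
  rw [h2, Finset.smul_sum]
  exact Finset.sum_congr rfl fun j _ => smul_smul _ _ _

end Pool.Agent.Zk90.KG
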