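import Pool.Agent.TH829.Kim.Defs

/-!
# Direct summands of the noncommutative Chow motive of a variety: definitions
-/

set_option autoImplicit false

open CategoryTheory AlgebraicGeometry

universe u v

namespace Pool.Agent.Zk90.KG

open Pool.Agent.H914 Pool.Agent.H914.VarClass Pool.Agent.H914.VarClass.Obj Pool.Agent.W492.BB
  Pool.Agent.W550.Corr Pool.Agent.TH133 Pool.Agent.TH829.Prime Pool.Agent.TH829.Kim

variable {k : Type u} [Field k] {𝒱 : VarClass k}

/-- The image of the self-correspondence `e` of `X` (of any degrees) is even: for some `n ≥ 1` its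
exterior power `Λ^n` is zero. -/
def IsEven (C : TheoryData.{u, v, 0} 𝒱 ℚ) {X : 𝒱.Obj} (e : C.A (X.prod X)) : Prop :=
  ∃ n : ℕ, 1 ≤ n ∧ ∀ (W : 𝒱.Obj) (x y : Fin n → (W ⟶ X)), altPower C e x y = 0

/-- The image of the self-correspondence `e` of `X` (of any degrees) is odd: for some `n ≥ 1` its
symmetric power `Sym^n` is zero. -/
def IsOdd (C : TheoryData.{u, v, 0} 𝒱 ℚ) {X : 𝒱.Obj} (e : C.A (X.prod X)) : Prop :=
  ∃ n : ℕ, 1 ≤ n ∧ ∀ (W : 𝒱.Obj) (x y : Fin n → (W ⟶ X)), symPower C e x y = 0

/-- The direct summand of the noncommutative Chow motive `U(perf_dg(X))` defined by the idempotent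
`p` is Kimura-finite: `p` is the sum of two idempotents `e` and `p - e`, `e = p e = e p`, the first
one even and the second one odd. -/
def IsKimuraFiniteSummand (C : TheoryData.{u, v, 0} 𝒱 ℚ) {X : 𝒱.Obj} (p : C.A (X.prod X)) : Prop :=
  ∃ e : C.A (X.prod X), C.comp e e = e ∧ C.comp p e = e ∧ C.comp e p = e ∧ IsEven C e ∧
    IsOdd C (p - e)

/-- `(X, q)` is an even or odd, indecomposable Chow motive: `q` is an idempotent
self-correspondence of degree zero, even or odd, not zero, and there is no idempotent `ε` of degree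
zero with `ε = q ε = ε q` except `0` and `q`. -/
structure IsIndecChow (C : TheoryData.{u, v, 0} 𝒱 ℚ) {X : 𝒱.Obj} (q : C.A (X.prod X)) :
    Prop where
  deg : C.Deg X.dim q
  idem : C.comp q q = q
  parity : IsEven C q ∨ IsOdd C q
  ne : q ≠ 0
  indec : ∀ ε : C.A (X.prod X), C.Deg X.dim ε → C.comp ε ε = ε → C.comp q ε = ε →
    C.comp ε q = ε → ε = 0 ∨ ε = q

/-- The direct summand of `U(perf_dg(X))` defined by the idempotent `p` is isomorphic to the direct
sum of the direct summands defined by the idempotents `q i`; the isomorphism is `(u i)`, and its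
inverse is `(v i)`. -/
def IsDirectSum (C : TheoryData.{u, v, 0} 𝒱 ℚ) {X : 𝒱.Obj} (p : C.A (X.prod X)) {N : ℕ}
    (q : Fin N → C.A (X.prod X)) : Prop :=
  ∃ u v : Fin N → C.A (X.prod X),
    (∀ i, C.comp p (u i) = u i ∧ C.comp (u i) (q i) = u i) ∧
    (∀ i, C.comp (q i) (v i) = v i ∧ C.comp (v i) p = v i) ∧
    (∀ i, C.comp (v i) (u i) = q i) ∧ (∀ i j, i ≠ j → C.comp (v i) (u j) = 0) ∧
    ∑ i, C.comp (u i) (v i) = p

/-- `a` and `b` are isomorphisms, inverse to each other, between the direct summands of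
`U(perf_dg(X))` defined by the idempotents `p` and `p'`. -/
structure AreInverse (C : TheoryData.{u, v, 0} 𝒱 ℚ) {X : 𝒱.Obj} (p p' a b : C.A (X.prod X)) :
    Prop where
  pa : C.comp p a = a
  ap' : C.comp a p' = a
  p'b : C.comp p' b = b
  bp : C.comp b p = b
  ab : C.comp a b = p
  ba : C.comp b a = p'

/-- The direct summands of `U(perf_dg(X))` defined by `p` and `p'` are isomorphic. -/
def AreIsomorphic (C : TheoryData.{u, v, 0} 𝒱 ℚ) {X : 𝒱.Obj} (p p' : C.A (X.prod X)) : Prop :=
  ∃ a b : C.A (X.prod X), AreInverse C p p' a b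

/-- The Chow motive `(X, q)` is isomorphic to a Tate twist `(X, q')(r)` of the Chow motive `(X, q')`:
there are isomorphisms inverse to each other of the degrees `r` and `-r`. -/
def AreTwists (C : TheoryData.{u, v, 0} 𝒱 ℚ) {X : 𝒱.Obj} (q q' : C.A (X.prod X)) : Prop :=
  ∃ (r : ℤ) (a b : C.A (X.prod X)), C.Deg (X.dim + r) a ∧ C.Deg (X.dim - r) b ∧
    AreInverse C q q' a b

end Pool.Agent.Zk90.KG
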