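import Pool.Agent.N174.KN.Ring
import Pool.Agent.Zk90.KG.D

/-!
# Direct summands of the noncommutative Chow motive of a variety
-/

set_option autoImplicit false

open CategoryTheory AlgebraicGeometry

universe u v w

namespace Pool.Agent.Zk90.KG

open Pool.Agent.H914 Pool.Agent.H914.VarClass Pool.Agent.H914.VarClass.Obj Pool.Agent.W492.BB
  Pool.Agent.W550.Corr Pool.Agent.TH133 Pool.Agent.TH829.Prime Pool.Agent.TH829.Kim
  Pool.Agent.N174.KN

set_option linter.unusedSectionVars false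

variable {k : Type u} [Field k] {𝒱 : VarClass k}

variable {C : TheoryData.{u, v, 0} 𝒱 ℚ} [hC : IsChowProj C] {X Y Z W V : 𝒱.Obj}

include hC

/-! ### Additivity of even and odd idempotents -/

/-- The development of Laplace for a matrix whose entries depend on the row only. -/
lemma laplaceR (s : Bool) {α β : Type} [Fintype α] [DecidableEq α] [Fintype β] [DecidableEq β]
    (p : α ⊕ β → C.A (X.prod X)) (x y : α ⊕ β → (W ⟶ X)) :
    ∑ σ : Equiv.Perm (α ⊕ β), wt s σ •
      (gd s (fun i _ => p (Sum.inl i)) (fun i => x (Sum.inl i)) (fun i => y (σ (Sum.inl i))) *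
        gd s (fun i _ => p (Sum.inr i)) (fun i => x (Sum.inr i)) (fun i => y (σ (Sum.inr i)))) =
      (Fintype.card (Equiv.Perm α) * Fintype.card (Equiv.Perm β) : ℕ) •
        gd s (fun i _ => p i) x y := by
  have h1 : ∀ σ : Equiv.Perm (α ⊕ β), wt s σ •
      (gd s (fun i _ => p (Sum.inl i)) (fun i => x (Sum.inl i)) (fun i => y (σ (Sum.inl i))) *
        gd s (fun i _ => p (Sum.inr i)) (fun i => x (Sum.inr i)) (fun i => y (σ (Sum.inr i)))) =
      ∑ τ : Equiv.Perm α, ∑ ρ : Equiv.Perm β, wt s (σ * Equiv.sumCongr τ ρ) •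
        ∏ i, ev (p i) (x i) (y ((σ * Equiv.sumCongr τ ρ) i)) := by
    intro σ
    rw [gd, gd, Finset.sum_mul_sum, Finset.smul_sum]
    apply Finset.sum_congr rfl
    intro τ _
    rw [Finset.smul_sum]
    apply Finset.sum_congr rfl
    intro ρ _
    rw [smul_mul_smul_comm, smul_smul, wt_mul, wt_sumCongr, Fintype.prod_sum_type]
    rfl
  rw [Finset.sum_congr rfl (fun σ _ => h1 σ), Finset.sum_comm]
  have h2 : ∀ τ : Equiv.Perm α, ∑ σ : Equiv.Perm (α ⊕ β), ∑ ρ : Equiv.Perm β,
      wt s (σ * Equiv.sumCongr τ ρ) • ∏ i, ev (p i) (x i) (y ((σ * Equiv.sumCongr τ ρ) i)) =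
      Fintype.card (Equiv.Perm β) • gd s (fun i _ => p i) x y := by
    intro τ
    rw [Finset.sum_comm, ← Finset.card_univ, ← Finset.sum_const]
    apply Finset.sum_congr rfl
    intro ρ _
    exact Equiv.sum_comp (Equiv.mulRight (Equiv.sumCongr τ ρ : Equiv.Perm (α ⊕ β)))
      (fun σ => wt s σ • ∏ i, ev (p i) (x i) (y (σ i)))
  rw [Finset.sum_congr rfl (fun τ _ => h2 τ), Finset.sum_const, Finset.card_univ, smul_smul]

lemma gd_reindexR (s : Bool) {α β : Type} [Fintype α] [DecidableEq α] [Fintype β] [DecidableEq β]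
    (ε : α ≃ β) (p : β → C.A (X.prod X)) (x y : β → (W ⟶ X)) :
    gd s (fun i _ => p (ε i)) (fun i => x (ε i)) (fun i => y (ε i)) =
      gd s (fun i _ => p i) x y := by
  rw [gd, gd, ← Equiv.sum_comp ε.permCongr]
  apply Finset.sum_congr rfl
  intro σ _
  rw [wt_permCongr, ← Equiv.prod_comp ε]
  simp only [Equiv.permCongr_apply, Equiv.symm_apply_apply]

/-- The generalized determinants vanish if sufficiently many rows are equal to `f`. -/
lemma gd_zero_of_rows {s : Bool} {f : Cor C X} {n N : ℕ} (h : DieC s f n)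
    (r : Fin N → C.A (X.prod X)) (ι : Fin n ↪ Fin N) (hr : ∀ i, r (ι i) = cl f)
    (x y : Fin N → (W ⟶ X)) : gd s (fun i _ => r i) x y = 0 := by
  classical
  let ε : Fin n ⊕ ((Set.range ι)ᶜ : Set (Fin N)) ≃ Fin N :=
    (Equiv.sumCongr (Equiv.ofInjective ι ι.injective) (Equiv.refl _)).trans
      (Equiv.Set.sumCompl (Set.range ι))
  have hε : ∀ i, ε (Sum.inl i) = ι i := fun i => rfl
  rw [← gd_reindexR s ε]
  have h1 := laplaceR s (fun i => r (ε i)) (fun i => x (ε i)) (fun i => y (ε i))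
  rw [Finset.sum_eq_zero] at h1
  · rw [← Nat.cast_smul_eq_nsmul ℚ] at h1
    refine (smul_eq_zero.1 h1.symm).resolve_left ?_
    have h9 : 0 < Fintype.card (Equiv.Perm (Fin n)) := Fintype.card_pos
    have h10 : 0 < Fintype.card (Equiv.Perm ((Set.range ι)ᶜ : Set (Fin N))) := Fintype.card_pos
    positivity
  · intro σ _
    have h2 : (fun (i : Fin n) (_ : Fin n) => r (ε (Sum.inl i))) = fun _ _ => cl f := by
      funext i _
      rw [hε, hr]
    rw [h2, h, zero_mul, smul_zero]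

lemma gd_add (s : Bool) {N : ℕ} (f g : C.A (X.prod X)) (x y : Fin N → (W ⟶ X)) :
    gd s (fun _ _ => f + g) x y =
      ∑ T : Finset (Fin N), gd s (fun i _ => if i ∈ T then f else g) x y := by
  unfold gd
  rw [Finset.sum_comm]
  refine Finset.sum_congr rfl fun σ _ => ?_
  rw [← Finset.smul_sum]
  congr 1
  simp only [ev_add]
  rw [Finset.prod_add, Finset.powerset_univ]
  refine Finset.sum_congr rfl fun T _ => ?_
  rw [← Finset.prod_mul_prod_compl T]
  congr 1
  · refine Finset.prod_congr rfl fun i hi => ?_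
    rw [if_pos hi]
  · rw [← Finset.compl_eq_univ_sdiff]
    refine Finset.prod_congr rfl fun i hi => ?_
    rw [if_neg (Finset.mem_compl.1 hi)]

lemma DieC.add {s : Bool} {f g : Cor C X} {n m : ℕ} (hf : DieC s f n) (hg : DieC s g m) :
    DieC s (f + g) (n + m) := by
  intro W x y
  rw [map_add, gd_add]
  refine Finset.sum_eq_zero fun T _ => ?_
  by_cases hT : n ≤ T.card
  · obtain ⟨T', h1, h2⟩ := Finset.exists_subset_card_eq hT
    refine gd_zero_of_rows hf _ (T'.orderEmbOfFin h2).toEmbedding (fun i => ?_) x y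
    exact if_pos (h1 (T'.orderEmbOfFin_mem h2 i))
  · have hT' : m ≤ Tᶜ.card := by
      rw [Finset.card_compl, Fintype.card_fin]
      omega
    obtain ⟨T', h1, h2⟩ := Finset.exists_subset_card_eq hT'
    refine gd_zero_of_rows hg _ (T'.orderEmbOfFin h2).toEmbedding (fun i => ?_) x y
    exact if_neg (Finset.mem_compl.1 (h1 (T'.orderEmbOfFin_mem h2 i)))

lemma DieC.zero (s : Bool) {n : ℕ} (hn : 1 ≤ n) : DieC s (0 : Cor C X) n := by
  obtain ⟨n, rfl⟩ := Nat.exists_eq_add_of_le' hn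
  intro W x y
  rw [gd]
  refine Finset.sum_eq_zero fun σ _ => ?_
  rw [Finset.prod_eq_zero (Finset.mem_univ (0 : Fin (n + 1))), smul_zero]
  exact map_zero _

lemma DieC.sum {s : Bool} {ι : Type*} (T : Finset ι) (f : ι → Cor C X)
    (h : ∀ i ∈ T, ∃ n, 1 ≤ n ∧ DieC s (f i) n) : ∃ n, 1 ≤ n ∧ DieC s (∑ i ∈ T, f i) n := by
  classical
  induction T using Finset.induction_on with
  | empty => exact ⟨1, le_rfl, DieC.zero s le_rfl⟩
  | insert i T hi ih =>
    obtain ⟨n, hn, h1⟩ := h i (Finset.mem_insert_self _ _)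
    obtain ⟨m, hm, h2⟩ := ih fun j hj => h j (Finset.mem_insert_of_mem hj)
    refine ⟨n + m, by omega, ?_⟩
    rw [Finset.sum_insert hi]
    exact DieC.add h1 h2

/-! ### The grading is bounded -/

lemma gC_bounded (r : ℤ) (hr : r ∉ Finset.Icc (-(X.dim : ℤ)) X.dim) (a : Cor C X)
    (ha : a ∈ gC C X r) : a = 0 := by
  rw [Finset.mem_Icc, not_and_or, not_le, not_le] at hr
  rcases hr with h | h
  · have h1 := mem_gC.1 ha
    rw [C.gr_neg _ _ (by omega), Submodule.mem_bot] at h1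
    exact h1
  · exact hC.gr_top (X.prod X) _ _ ha (by rw [dim_prod]; push_cast; omega)

/-! ### The scaling automorphism and generalized determinants -/

/-- the grading of the ring `A(W)` -/
@[instance_reducible]
noncomputable def gA (C : TheoryData.{u, v, 0} 𝒱 ℚ) [hC : IsChowProj C] (W : 𝒱.Obj) :
    GradedAlgebra (C.gr W) where
  one_mem := C.one_mem W
  mul_mem := fun _ _ _ _ ha hb => C.mul_mem ha hb
  toDecomposition := (C.isInternal W).chooseDecomposition

/-- the scaling automorphism of `A(W)` -/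
noncomputable def scA (C : TheoryData.{u, v, 0} 𝒱 ℚ) [hC : IsChowProj C] (W : 𝒱.Obj) :
    C.A W →ₐ[ℚ] C.A W :=
  letI := gA C W
  scale (C.gr W) 2 two_ne_zero

lemma scA_of_mem {W : 𝒱.Obj} {r : ℤ} {a : C.A W} (ha : a ∈ C.gr W r) :
    scA C W a = (2 : ℚ) ^ r • a := by
  let := gA C W
  exact scale_of_mem ha

lemma ev_sc (f : Cor C X) (x y : W ⟶ X) :
    ev (cl (sc (gC C X) f)) x y = ((2 : ℚ) ^ (X.dim : ℤ))⁻¹ • scA C W (ev (cl f) x y) := by
  refine hom_induction (𝒢 := gC C X) (p := fun f => ev (cl (sc (gC C X) f)) x y =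
    ((2 : ℚ) ^ (X.dim : ℤ))⁻¹ • scA C W (ev (cl f) x y)) ?_ ?_ ?_ f
  · intro r a ha
    have h1 : sc (gC C X) a = (2 : ℚ) ^ r • a := scale_of_mem ha
    have h2 : scA C W (ev (cl a) x y) = (2 : ℚ) ^ ((X.dim : ℤ) + r) • ev (cl a) x y :=
      scA_of_mem (ev_mem (mem_gC.1 ha) x y)
    rw [h1, map_smul, ev_smul, h2, smul_smul, zpow_add₀ two_ne_zero, ← mul_assoc,
      inv_mul_cancel₀ (zpow_ne_zero _ two_ne_zero), one_mul]
  · rw [map_zero, map_zero]
    change C.pull _ 0 = _ • scA C W (C.pull _ 0)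
    rw [map_zero, map_zero, smul_zero]
  · intro a b h1 h2
    rw [map_add, map_add, map_add, ev_add, ev_add, map_add, smul_add, h1, h2]

lemma DieC.sc {s : Bool} {f : Cor C X} {n : ℕ} (h : DieC s f n) : DieC s (sc (gC C X) f) n := by
  intro W x y
  have h1 : gd s (fun _ _ => cl (KG.sc (gC C X) f)) x y =
      (((2 : ℚ) ^ (X.dim : ℤ))⁻¹) ^ n • scA C W (gd s (fun _ _ => cl f) x y) := by
    rw [gd, gd, map_sum, Finset.smul_sum]
    refine Finset.sum_congr rfl fun σ _ => ?_
    rw [map_zsmul, map_prod, smul_comm, Finset.prod_congr rfl (fun i _ => ev_sc f (x i) (y (σ i))),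
      Finset.prod_smul, Finset.prod_const, Finset.card_univ, Fintype.card_fin]
  rw [h1, h, map_zero, smul_zero]

lemma DieC.scp {s : Bool} {f : Cor C X} {n : ℕ} (h : DieC s f n) (j : ℕ) :
    DieC s (scp (gC C X) j f) n := by
  induction j with
  | zero => exact h
  | succ j ih => exact DieC.sc ih

/-- The ideal of the self-correspondences some generalized determinant of which vanishes. -/
def DieI (s : Bool) (f : Cor C X) : Prop := ∃ n, 1 ≤ n ∧ DieC s f n

lemma DieI.left {s : Bool} (a : Cor C X) {b : Cor C X} (h : DieI s b) : DieI s (a * b) := by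
  obtain ⟨n, hn, h⟩ := h
  exact ⟨n, hn, fun W x y => h.cols a W x y⟩

lemma DieI.right {s : Bool} {a : Cor C X} (b : Cor C X) (h : DieI s a) : DieI s (a * b) := by
  obtain ⟨n, hn, h⟩ := h
  exact ⟨n, hn, fun W x y => h.rows (fun _ => b) W x y⟩

lemma DieI.add {s : Bool} {a b : Cor C X} (ha : DieI s a) (hb : DieI s b) : DieI s (a + b) := by
  obtain ⟨n, hn, ha⟩ := ha
  obtain ⟨m, hm, hb⟩ := hb
  exact ⟨n + m, by omega, DieC.add ha hb⟩

lemma DieI.cp_zero {s : Bool} {a : Cor C X} (ha : DieI s a) : DieI s (cp (gC C X) 0 a) := by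
  obtain ⟨M, c, h⟩ := cp_zero_eq (𝒢 := gC C X) a
  rw [h]
  refine DieC.sum _ _ fun j _ => ?_
  obtain ⟨n, hn, ha⟩ := ha
  have h1 : DieI s (scp (gC C X) j a) := ⟨n, hn, DieC.scp ha j⟩
  have h2 := h1.left (algebraMap ℚ (Cor C X) (c j))
  rwa [← Algebra.smul_def] at h2

variable {hne : ∀ X : 𝒱.Obj, (1 : C.A X) ≠ 0}

/-- the contractions of a vanishing generalized determinant -/
lemma K_zero {s : Bool} {a : Cor C X} {n : ℕ} (h : DieC s a (n + 1)) :
    K (trC hne X) (eta s) n (fun _ => a) = 0 := by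
  have h1 : grC s (fun _ : Fin (n + 1) => a) = 0 := by
    funext W x y
    exact h W x y
  have h2 := congrArg (iterL C X n) h1
  rw [iterL_grC (hne := hne), map_zero] at h2
  have h3 := congrFun (congrFun (congrFun h2 (X.prod X)) (fun _ => fst X X)) (fun _ => snd X X)
  have h4 : evC (K (trC hne X) (eta s) n (fun _ => a)) (X.prod X) (fun _ => fst X X)
      (fun _ => snd X X) = cl (K (trC hne X) (eta s) n (fun _ => a)) := ev_univ _
  rw [h4] at h3
  exact cl_inj h3

lemma F_zero {s : Bool} {a : Cor C X} {n : ℕ} (h : DieC s a (n + 1)) :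
    F (trC hne X) (eta s) (n + 1) (fun _ => a) = 0 := by
  have h1 : grC s (fun _ : Fin (n + 1) => a) = 0 := by
    funext W x y
    exact h W x y
  have h2 := congrArg (iterL0 C X (n + 1)) h1
  rw [iterL0_grC (hne := hne), map_zero] at h2
  have h3 := congrFun (congrFun (congrFun h2 X) Fin.elim0) Fin.elim0
  have h4 : F (trC hne X) (eta s) (n + 1) (fun _ => a) • (1 : C.A X) = 0 := h3
  exact (smul_eq_zero.1 h4).resolve_right (hne X)

lemma finI_dieI (s : Bool) : FinI (trC hne X) (eta s) (DieI s : Cor C X → Prop) where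
  zero := ⟨1, le_rfl, DieC.zero s le_rfl⟩
  add := fun _ _ ha hb => ha.add hb
  left := fun a _ hb => hb.left a
  right := fun _ b ha => ha.right b
  K_eq := by
    rintro a ⟨n, hn, h⟩
    obtain ⟨n, rfl⟩ := Nat.exists_eq_add_of_le' hn
    exact ⟨n, K_zero h⟩
  F_eq := by
    rintro a ⟨n, hn, h⟩
    obtain ⟨n, rfl⟩ := Nat.exists_eq_add_of_le' hn
    refine ⟨n, fun k hk => F_zero ?_⟩
    obtain ⟨j, rfl⟩ := Nat.exists_eq_add_of_le' hk
    rw [pow_succ]
    exact fun W x y => h.cols (a ^ j) W x y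

end Pool.Agent.Zk90.KG
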