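import Pool.Agent.Zk90.KG.D

/-!
# Graded algebras with a trace: uniqueness of the decomposition
-/

set_option autoImplicit false

namespace Pool.Agent.Zk90.KG

open Pool.Agent.TH829.Kim Pool.Agent.N174.KN

universe w

variable {R : Type w} [Ring R] [Algebra ℚ R] {tr : R →ₗ[ℚ] ℚ} {𝒢 : ℤ → Submodule ℚ R}
  [GradedAlgebra 𝒢]

/-- the grading of `R` -/
noncomputable def grR (𝒢 : ℤ → Submodule ℚ R) [GradedAlgebra 𝒢] (E : Finset ℤ)
    (hE : ∀ r ∉ E, ∀ a ∈ 𝒢 r, a = 0) : Gr R where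
  c := cp 𝒢
  E := E
  sum x := Quot'.sum_cp hE x
  idem r s x := by
    split_ifs with h
    · rw [h, cp_same (cp_mem s x)]
    · exact cp_ne (cp_mem s x) (Ne.symm h)
  mul r s t x y := by
    have h1 : cp 𝒢 r x * cp 𝒢 s y ∈ 𝒢 (r + s) := SetLike.mul_mem_graded (cp_mem r x) (cp_mem s y)
    split_ifs with h
    · rw [h, cp_same h1]
    · exact cp_ne h1 (Ne.symm h)
  one := cp_same SetLike.GradedOne.one_mem

/-- an idempotent in some ideal of finite-dimensional elements -/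
def IsF (tr : R →ₗ[ℚ] ℚ) (q : R) : Prop :=
  ∃ (η : ℚ) (I : R → Prop), η ≠ 0 ∧ FinI tr η I ∧ I q

/-- The images of the idempotents `q` and `q'` are isomorphic; `a` and `b` are isomorphisms inverse
to each other. -/
structure Iso' (q q' a b : R) : Prop where
  qa : q * a = a
  aq : a * q' = a
  qb : q' * b = b
  bq : b * q = b
  ab : a * b = q
  ba : b * a = q'

omit [Algebra ℚ R] in
lemma Iso'.refl {q : R} (hq : q * q = q) : Iso' q q q q := ⟨hq, hq, hq, hq, hq, hq⟩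

omit [Algebra ℚ R] in
lemma Iso'.symm {q q' a b : R} (h : Iso' q q' a b) : Iso' q' q b a :=
  ⟨h.qb, h.bq, h.qa, h.aq, h.ba, h.ab⟩

omit [Algebra ℚ R] in
lemma Iso'.trans {q q' q'' a b a' b' : R} (h : Iso' q q' a b) (h' : Iso' q' q'' a' b') :
    Iso' q q'' (a * a') (b' * b) := by
  refine ⟨?_, ?_, ?_, ?_, ?_, ?_⟩
  · rw [← mul_assoc, h.qa]
  · rw [mul_assoc, h'.aq]
  · rw [← mul_assoc, h'.qb]
  · rw [mul_assoc, h.bq]
  · rw [mul_assoc, ← mul_assoc a', h'.ab, h.qb, h.ab]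
  · rw [mul_assoc, ← mul_assoc b, h.ba, h'.qa, h'.ba]

/-- the relation of isomorphism -/
def IsoR (q q' : R) : Prop := ∃ a b, Iso' q q' a b

variable {E : Finset ℤ}

lemma local' (hE : ∀ r ∉ E, ∀ a ∈ 𝒢 r, a = 0) (htr : ∀ r ≠ 0, ∀ a ∈ 𝒢 r, tr a = 0) {q : R}
    (hq : PrimR 𝒢 q) (hF : IsF tr q) {x : R} (hx1 : q * x = x) (hx2 : x * q = x) :
    IsNilpotent x ∨ ∃ t, q * t = t ∧ t * q = t ∧ x * t = q := by
  obtain ⟨η, I, hη, hI, hqI⟩ := hF
  let G := grR 𝒢 E hE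
  have hp : Prim G I q := ⟨cp_same hq.deg, hq.idem, hq.ne, hqI, fun ε e0 e1 e2 e3 =>
    hq.min ε (by rw [← e0]; exact cp_mem 0 ε) e1 e2 e3⟩
  have htr' : ∀ r ≠ 0, ∀ x, tr (G.c r x) = 0 := fun r hr x => htr r hr _ (cp_mem r x)
  by_cases hn : IsNilpotent (G.c 0 x)
  · exact Or.inl (nil_of_zero_comp hI hη htr' hp hx1 hx2 hn)
  · exact Or.inr (inv_of_zero_comp hI hη htr' hp hx1 hx2 hn)

/-- a nonzero idempotent of `q R q` is equal to `q` -/
lemma idem_local (hE : ∀ r ∉ E, ∀ a ∈ 𝒢 r, a = 0) (htr : ∀ r ≠ 0, ∀ a ∈ 𝒢 r, tr a = 0) {q : R}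
    (hq : PrimR 𝒢 q) (hF : IsF tr q) {e : R} (h1 : q * e = e) (h2 : e * q = e) (he : e * e = e)
    (h0 : e ≠ 0) : e = q := by
  rcases local' hE htr hq hF h1 h2 with h | ⟨t, t1, t2, t3⟩
  · exact (h0 (idem_eq_zero he h)).elim
  · rw [← h2, ← t3, ← mul_assoc, he]

/-- if a composition of morphisms from `q` to `q'` and back is not nilpotent then `q` and `q'` are
isomorphic -/
lemma iso_of_not_nil (hE : ∀ r ∉ E, ∀ a ∈ 𝒢 r, a = 0) (htr : ∀ r ≠ 0, ∀ a ∈ 𝒢 r, tr a = 0)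
    {q q' : R} (hq : PrimR 𝒢 q) (hF : IsF tr q) (hq' : PrimR 𝒢 q') (hF' : IsF tr q') {a b : R}
    (a1 : q * a = a) (a2 : a * q' = a) (b1 : q' * b = b) (b2 : b * q = b)
    (h : ¬ IsNilpotent (a * b)) : IsoR q q' := by
  rcases local' hE htr hq hF (x := a * b) (by rw [← mul_assoc, a1]) (by rw [mul_assoc, b2]) with
    h1 | ⟨t, t1, t2, t3⟩
  · exact (h h1).elim
  have e0 : a * (b * t) = q := by rw [← mul_assoc, t3]
  have e1 : (b * t) * a * ((b * t) * a) = (b * t) * a := by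
    calc (b * t) * a * ((b * t) * a) = b * t * (a * (b * t)) * a := by simp only [mul_assoc]
      _ = b * (t * q) * a := by rw [e0]; simp only [mul_assoc]
      _ = (b * t) * a := by rw [t2]
  have e2 : (b * t) * a = q' := by
    refine idem_local hE htr hq' hF' ?_ ?_ e1 ?_
    · rw [← mul_assoc, ← mul_assoc, b1]
    · rw [mul_assoc, a2]
    · intro h3
      apply hq.ne
      calc q = q * q := hq.idem.symm
        _ = a * ((b * t) * a) * (b * t) := by
          conv_lhs => rw [← e0]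
          simp only [mul_assoc]
        _ = 0 := by rw [h3, mul_zero, zero_mul]
  exact ⟨a, b * t, a1, a2, by rw [← mul_assoc, b1], by rw [mul_assoc, t2], e0, e2⟩

/-- Tate twist: isomorphic idempotents of degree zero without proper idempotents are isomorphic by
homogeneous isomorphisms -/
lemma twist_of_iso (hE : ∀ r ∉ E, ∀ a ∈ 𝒢 r, a = 0) {q q' : R} (hq : PrimR 𝒢 q) (hF : IsF tr q)
    (hq' : PrimR 𝒢 q') (h : IsoR q q') :
    ∃ r : ℤ, ∃ a ∈ 𝒢 r, ∃ b ∈ 𝒢 (-r), Iso' q q' a b := by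
  obtain ⟨a, b, h⟩ := h
  obtain ⟨η, I, hη, hI, hqI⟩ := hF
  let G := grR 𝒢 E hE
  have hp : Prim G I q := ⟨cp_same hq.deg, hq.idem, hq.ne, hqI, fun ε e0 e1 e2 e3 =>
    hq.min ε (by rw [← e0]; exact cp_mem 0 ε) e1 e2 e3⟩
  have hq'0 : G.c 0 q' = q' := cp_same hq'.deg
  have hin : ∀ r, InP G q (G.c r a * G.c (-r) b) := fun r =>
    ⟨G.c_deg_mul r a b, by rw [← mul_assoc, ← G.deg_zero_mul_c r hp.deg, h.qa],
      by rw [mul_assoc, ← G.c_mul_deg_zero (-r) b hp.deg, h.bq]⟩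
  have hex : ∃ r ∈ G.E, ¬ IsNilpotent (G.c r a * G.c (-r) b) := by
    by_contra hcon
    push Not at hcon
    have h1 := sum_nil hI hη hp G.E (fun r _ => hin r) hcon
    rw [← G.c_zero_mul, h.ab, hp.deg] at h1
    exact hq.ne (idem_eq_zero hq.idem h1)
  obtain ⟨r, -, hr⟩ := hex
  rcases (hin r).nil_or_inv hI hη hp with h1 | ⟨t, ht, t3, -⟩
  · exact (hr h1).elim
  have m1 : G.c r a ∈ 𝒢 r := cp_mem r a
  have m2 : G.c (-r) b ∈ 𝒢 (-r) := cp_mem (-r) b
  have m3 : t ∈ 𝒢 0 := by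
    rw [← ht.deg]
    exact cp_mem 0 t
  have m4 : G.c (-r) b * t ∈ 𝒢 (-r) := by
    have := SetLike.mul_mem_graded m2 m3
    rwa [add_zero] at this
  have c1 : q * G.c r a = G.c r a := by rw [← G.deg_zero_mul_c r hp.deg, h.qa]
  have c2 : G.c r a * q' = G.c r a := by rw [← G.c_mul_deg_zero r a hq'0, h.aq]
  have c3 : q' * G.c (-r) b = G.c (-r) b := by rw [← G.deg_zero_mul_c (-r) hq'0, h.qb]
  have e0 : G.c r a * (G.c (-r) b * t) = q := by rw [← mul_assoc, t3]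
  have e1 : (G.c (-r) b * t) * G.c r a * ((G.c (-r) b * t) * G.c r a) =
      (G.c (-r) b * t) * G.c r a := by
    calc (G.c (-r) b * t) * G.c r a * ((G.c (-r) b * t) * G.c r a)
        = G.c (-r) b * t * (G.c r a * (G.c (-r) b * t)) * G.c r a := by simp only [mul_assoc]
      _ = G.c (-r) b * (t * q) * G.c r a := by rw [e0]; simp only [mul_assoc]
      _ = (G.c (-r) b * t) * G.c r a := by rw [ht.r]
  have e2 : (G.c (-r) b * t) * G.c r a = q' := by
    have m5 : (G.c (-r) b * t) * G.c r a ∈ 𝒢 0 := by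
      have := SetLike.mul_mem_graded m4 m1
      rwa [neg_add_cancel] at this
    rcases hq'.min _ m5 e1 (by rw [← mul_assoc, ← mul_assoc, c3]) (by rw [mul_assoc, c2]) with
      h3 | h3
    · exfalso
      apply hq.ne
      calc q = q * q := hq.idem.symm
        _ = G.c r a * ((G.c (-r) b * t) * G.c r a) * (G.c (-r) b * t) := by
          conv_lhs => rw [← e0]
          simp only [mul_assoc]
        _ = 0 := by rw [h3, mul_zero, zero_mul]
    · exact h3
  exact ⟨r, G.c r a, m1, G.c (-r) b * t, m4, c1, c2, by rw [← mul_assoc, c3],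
    by rw [mul_assoc, ht.r], e0, e2⟩

/-- The data of a decomposition. -/
structure Dec (p : R) {N : ℕ} (q u v : Fin N → R) : Prop where
  pu : ∀ i, p * u i = u i
  uq : ∀ i, u i * q i = u i
  qv : ∀ i, q i * v i = v i
  vp : ∀ i, v i * p = v i
  one : ∀ i, v i * u i = q i
  orth : ∀ i j, i ≠ j → v i * u j = 0
  sum : ∑ i, u i * v i = p

/-- the multiplicities of the isomorphism classes agree -/
lemma card_eq (hsym : ∀ a b, tr (a * b) = tr (b * a)) (hE : ∀ r ∉ E, ∀ a ∈ 𝒢 r, a = 0)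
    (htr : ∀ r ≠ 0, ∀ a ∈ 𝒢 r, tr a = 0) {p : R} {N N' : ℕ} {q u v : Fin N → R}
    {q' u' v' : Fin N' → R} (hd : Dec p q u v) (hd' : Dec p q' u' v')
    (hq : ∀ i, PrimR 𝒢 (q i)) (hF : ∀ i, IsF tr (q i)) (hq' : ∀ i, PrimR 𝒢 (q' i))
    (hF' : ∀ i, IsF tr (q' i)) (A : Finset (Fin N)) (B : Finset (Fin N')) (τ : ℚ) (hτ : τ ≠ 0)
    (hA : ∀ i ∈ A, tr (q i) = τ) (hB : ∀ j ∈ B, tr (q' j) = τ)
    (hAB : ∀ i ∈ A, ∀ j ∉ B, ¬ IsoR (q i) (q' j)) (hBA : ∀ i ∉ A, ∀ j ∈ B, ¬ IsoR (q i) (q' j)) :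
    A.card = B.card := by
  have key : ∀ i j, ¬ IsoR (q i) (q' j) → tr (u i * v i * (u' j * v' j)) = 0 := by
    intro i j h
    have h1 : tr (u i * v i * (u' j * v' j)) = tr ((v i * u' j) * (v' j * u i)) := by
      rw [show u i * v i * (u' j * v' j) = u i * (v i * u' j * v' j) by simp only [mul_assoc],
        hsym]
      congr 1
      simp only [mul_assoc]
    rw [h1]
    have h2 : IsNilpotent ((v i * u' j) * (v' j * u i)) := by
      by_contra h3
      refine h (iso_of_not_nil hE htr (hq i) (hF i) (hq' j) (hF' j) ?_ ?_ ?_ ?_ h3)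
      · rw [← mul_assoc, hd.qv]
      · rw [mul_assoc, hd'.uq]
      · rw [← mul_assoc, hd'.qv]
      · rw [mul_assoc, hd.uq]
    obtain ⟨η, I, hη, hI, hqI⟩ := hF i
    refine hI.tr_of_nil ?_ h2
    have h4 : (v i * u' j) * (v' j * u i) = q i * ((v i * u' j) * (v' j * u i)) := by
      rw [← mul_assoc (q i), ← mul_assoc (q i), hd.qv]
    rw [h4]
    exact hI.right _ _ hqI
  have hA' : (A.card : ℚ) * τ = ∑ i ∈ A, ∑ j ∈ B, tr (u i * v i * (u' j * v' j)) := by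
    have h1 : ∀ i ∈ A, τ = ∑ j ∈ B, tr (u i * v i * (u' j * v' j)) := by
      intro i hi
      have h2 : ∑ j ∈ B, tr (u i * v i * (u' j * v' j)) =
          ∑ j, tr (u i * v i * (u' j * v' j)) :=
        Finset.sum_subset (Finset.subset_univ _) fun j _ hj => key i j (hAB i hi j hj)
      rw [h2, ← map_sum, ← Finset.mul_sum, hd'.sum, mul_assoc, hd.vp, hsym, hd.one, hA i hi]
    rw [← Finset.sum_congr rfl h1, Finset.sum_const, nsmul_eq_mul]
  have hB' : (B.card : ℚ) * τ = ∑ i ∈ A, ∑ j ∈ B, tr (u i * v i * (u' j * v' j)) := by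
    have h1 : ∀ j ∈ B, τ = ∑ i ∈ A, tr (u i * v i * (u' j * v' j)) := by
      intro j hj
      have h2 : ∑ i ∈ A, tr (u i * v i * (u' j * v' j)) =
          ∑ i, tr (u i * v i * (u' j * v' j)) :=
        Finset.sum_subset (Finset.subset_univ _) fun i _ hi => key i j (hBA i hi j hj)
      rw [h2, ← map_sum, ← Finset.sum_mul, hd.sum, ← mul_assoc, hd'.pu, hsym, hd'.one, hB j hj]
    rw [Finset.sum_comm, ← Finset.sum_congr rfl h1, Finset.sum_const, nsmul_eq_mul]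
  have h3 := mul_right_cancel₀ hτ (hA'.trans hB'.symm)
  exact_mod_cast h3

lemma IsoR.tr_eq (hsym : ∀ a b, tr (a * b) = tr (b * a)) {q q' : R} (h : IsoR q q') :
    tr q = tr q' := by
  obtain ⟨a, b, h⟩ := h
  rw [← h.ab, ← h.ba, hsym]

/-- **Uniqueness of the decomposition.** -/
theorem exists_perm (hsym : ∀ a b, tr (a * b) = tr (b * a)) (hE : ∀ r ∉ E, ∀ a ∈ 𝒢 r, a = 0)
    (htr : ∀ r ≠ 0, ∀ a ∈ 𝒢 r, tr a = 0) {p : R} {N N' : ℕ} {q u v : Fin N → R}
    {q' u' v' : Fin N' → R} (hd : Dec p q u v) (hd' : Dec p q' u' v')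
    (hq : ∀ i, PrimR 𝒢 (q i)) (hF : ∀ i, IsF tr (q i)) (hq' : ∀ i, PrimR 𝒢 (q' i))
    (hF' : ∀ i, IsF tr (q' i)) : ∃ σ : Fin N ≃ Fin N', ∀ i, IsoR (q i) (q' (σ i)) := by
  classical
  let Z : Fin N ⊕ Fin N' → R := Sum.elim q q'
  have hZ : ∀ s, Z s * Z s = Z s := by
    rintro (i | j)
    · exact (hq i).idem
    · exact (hq' j).idem
  let st : Setoid (Fin N ⊕ Fin N') :=
    { r := fun s t => IsoR (Z s) (Z t)
      iseqv := ⟨fun s => ⟨_, _, Iso'.refl (hZ s)⟩, fun ⟨a, b, h⟩ => ⟨b, a, h.symm⟩,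
        fun ⟨a, b, h⟩ ⟨a', b', h'⟩ => ⟨_, _, h.trans h'⟩⟩ }
  let f : Fin N → Quotient st := fun i => Quotient.mk st (Sum.inl i)
  let g : Fin N' → Quotient st := fun j => Quotient.mk st (Sum.inr j)
  have hfg : ∀ i j, f i = g j ↔ IsoR (q i) (q' j) := fun i j => Quotient.eq (r := st)
  have hff : ∀ i j, f i = f j ↔ IsoR (q i) (q j) := fun i j => Quotient.eq (r := st)
  have hgg : ∀ i j, g i = g j ↔ IsoR (q' i) (q' j) := fun i j => Quotient.eq (r := st)
  have hcard : ∀ c, Fintype.card {i // f i = c} = Fintype.card {j // g j = c} := by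
    intro c
    rw [Fintype.card_subtype, Fintype.card_subtype]
    obtain ⟨s, rfl⟩ := Quotient.exists_rep c
    have hFs : IsF tr (Z s) := by
      rcases s with i | j
      · exact hF i
      · exact hF' j
    have hZne : Z s ≠ 0 := by
      rcases s with i | j
      · exact (hq i).ne
      · exact (hq' j).ne
    have hτ : tr (Z s) ≠ 0 := by
      obtain ⟨η, I, hη, hI, hqI⟩ := hFs
      obtain ⟨j, hj, hj'⟩ := hI.tr_idem hqI (hZ s) hZne
      rw [hj', neg_ne_zero]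
      exact mul_ne_zero (by
        have : j ≠ 0 := by omega
        exact_mod_cast this) hη
    have e1 : ∀ i, f i = Quotient.mk st s ↔ IsoR (q i) (Z s) := fun i => Quotient.eq (r := st)
    have e2 : ∀ j, g j = Quotient.mk st s ↔ IsoR (q' j) (Z s) := fun j => Quotient.eq (r := st)
    refine card_eq hsym hE htr hd hd' hq hF hq' hF' _ _ (tr (Z s)) hτ ?_ ?_ ?_ ?_
    · intro i hi
      exact ((e1 i).1 (Finset.mem_filter.1 hi).2).tr_eq hsym
    · intro j hj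
      exact ((e2 j).1 (Finset.mem_filter.1 hj).2).tr_eq hsym
    · intro i hi j hj h
      refine hj (Finset.mem_filter.2 ⟨Finset.mem_univ _, ?_⟩)
      rw [← (hfg i j).2 h]
      exact (Finset.mem_filter.1 hi).2
    · intro i hi j hj h
      refine hi (Finset.mem_filter.2 ⟨Finset.mem_univ _, ?_⟩)
      rw [(hfg i j).2 h]
      exact (Finset.mem_filter.1 hj).2
  let σ : Fin N ≃ Fin N' := Equiv.ofFiberEquiv (f := f) (g := g) fun c =>
    Fintype.equivOfCardEq (hcard c)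
  exact ⟨σ, fun i => (hfg i (σ i)).1 (Equiv.ofFiberEquiv_map _ i).symm⟩

end Pool.Agent.Zk90.KG
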