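import Pool.Agent.Zk90.KG.Defs
import Pool.Agent.Zk90.KG.E
import Pool.Agent.Zk90.KG.U

/-!
# Kimura-finite direct summands of the noncommutative Chow motive of a variety come from Chow motives
-/

set_option autoImplicit false

open CategoryTheory AlgebraicGeometry

universe u v w

namespace Pool.Agent.Zk90.KG

open Pool.Agent.H914 Pool.Agent.H914.VarClass Pool.Agent.H914.VarClass.Obj Pool.Agent.W492.BB
  Pool.Agent.W550.Corr Pool.Agent.TH133 Pool.Agent.TH829.Prime Pool.Agent.TH829.Kim
  Pool.Agent.N174.KN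

set_option linter.unusedSectionVars false

section ring

/-! ### Decompositions in rings -/

variable {R : Type w} [Ring R]

lemma Dec.transport {p p' a b : R} (h : Iso' p p' a b) {N : ℕ} {q u v : Fin N → R}
    (hd : Dec p' q u v) : Dec p q (fun i => a * u i) (fun i => v i * b) where
  pu i := by rw [← mul_assoc, h.qa]
  uq i := by rw [mul_assoc, hd.uq]
  qv i := by rw [← mul_assoc, hd.qv]
  vp i := by rw [mul_assoc, h.bq]
  one i := by
    calc v i * b * (a * u i) = v i * (b * a) * u i := by simp only [mul_assoc]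
      _ = q i := by rw [h.ba, hd.vp, hd.one]
  orth i j hij := by
    calc v i * b * (a * u j) = v i * (b * a) * u j := by simp only [mul_assoc]
      _ = 0 := by rw [h.ba, hd.vp, hd.orth i j hij]
  sum := by
    calc ∑ i, a * u i * (v i * b) = a * (∑ i, u i * v i) * b := by
          rw [Finset.mul_sum, Finset.sum_mul]
          exact Finset.sum_congr rfl fun i _ => by simp only [mul_assoc]
      _ = p := by rw [hd.sum, h.aq, h.ab]

lemma iso_of_perm_aux {p p' : R} {N N' : ℕ} {q u v : Fin N → R} {q' u' v' : Fin N' → R}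
    (hd : Dec p q u v) (hd' : Dec p' q' u' v') (σ : Fin N ≃ Fin N') {a b : Fin N → R}
    (h : ∀ i, Iso' (q i) (q' (σ i)) (a i) (b i)) :
    (∑ i, u i * a i * v' (σ i)) * (∑ i, u' (σ i) * b i * v i) = p := by
  rw [Finset.sum_mul_sum, ← hd.sum]
  refine Finset.sum_congr rfl fun i _ => ?_
  rw [Finset.sum_eq_single i]
  · calc u i * a i * v' (σ i) * (u' (σ i) * b i * v i)
        = u i * a i * (v' (σ i) * u' (σ i)) * b i * v i := by simp only [mul_assoc]
      _ = u i * (a i * b i) * v i := by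
          rw [hd'.one, mul_assoc (u i) (a i), (h i).aq]
          simp only [mul_assoc]
      _ = u i * v i := by rw [(h i).ab, hd.uq]
  · intro j _ hji
    calc u i * a i * v' (σ i) * (u' (σ j) * b j * v j)
        = u i * a i * (v' (σ i) * u' (σ j)) * b j * v j := by simp only [mul_assoc]
      _ = 0 := by
        rw [hd'.orth _ _ (fun h3 => hji (σ.injective h3).symm), mul_zero, zero_mul, zero_mul]
  · intro hn
    exact (hn (Finset.mem_univ _)).elim

lemma iso_of_perm {p p' : R} {N N' : ℕ} {q u v : Fin N → R} {q' u' v' : Fin N' → R}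
    (hd : Dec p q u v) (hd' : Dec p' q' u' v') (σ : Fin N ≃ Fin N')
    (h : ∀ i, IsoR (q i) (q' (σ i))) : IsoR p p' := by
  choose a b h using h
  refine ⟨∑ i, u i * a i * v' (σ i), ∑ i, u' (σ i) * b i * v i, ?_, ?_, ?_, ?_,
    iso_of_perm_aux hd hd' σ h, ?_⟩
  · rw [Finset.mul_sum]
    exact Finset.sum_congr rfl fun i _ => by rw [← mul_assoc, ← mul_assoc, hd.pu]
  · rw [Finset.sum_mul]
    exact Finset.sum_congr rfl fun i _ => by rw [mul_assoc, hd'.vp]
  · rw [Finset.mul_sum]
    exact Finset.sum_congr rfl fun i _ => by rw [← mul_assoc, ← mul_assoc, hd'.pu]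
  · rw [Finset.sum_mul]
    exact Finset.sum_congr rfl fun i _ => by rw [mul_assoc, hd.vp]
  · have h1 : ∀ j, Iso' (q' j) (q (σ.symm j)) (b (σ.symm j)) (a (σ.symm j)) := by
      intro j
      have h2 := (h (σ.symm j)).symm
      rwa [Equiv.apply_symm_apply] at h2
    have h2 := iso_of_perm_aux hd' hd σ.symm h1
    rw [← h2]
    congr 1
    · rw [← Equiv.sum_comp σ]
      exact Finset.sum_congr rfl fun i _ => by rw [Equiv.symm_apply_apply]
    · rw [← Equiv.sum_comp σ]
      exact Finset.sum_congr rfl fun i _ => by rw [Equiv.symm_apply_apply]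

end ring

variable {k : Type u} [Field k] {𝒱 : VarClass k}

variable {C : TheoryData.{u, v, 0} 𝒱 ℚ} [hC : IsChowProj C] {X Y Z W V : 𝒱.Obj}

include hC

lemma isEven_iff (e : Cor C X) : IsEven C (cl e) ↔ DieI true e := by
  constructor
  · rintro ⟨n, hn, h⟩
    refine ⟨n, hn, fun W x y => ?_⟩
    rw [← altPower_eq]
    exact h W x y
  · rintro ⟨n, hn, h⟩
    refine ⟨n, hn, fun W x y => ?_⟩
    rw [altPower_eq]
    exact h W x y

lemma isOdd_iff (e : Cor C X) : IsOdd C (cl e) ↔ DieI false e := by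
  constructor
  · rintro ⟨n, hn, h⟩
    refine ⟨n, hn, fun W x y => ?_⟩
    rw [← symPower_eq]
    exact h W x y
  · rintro ⟨n, hn, h⟩
    refine ⟨n, hn, fun W x y => ?_⟩
    rw [symPower_eq]
    exact h W x y

omit hC in
lemma eta_ne (s : Bool) : eta s ≠ 0 := by
  unfold eta
  split_ifs <;> norm_num

/-- the pieces of an even or odd idempotent -/
lemma exists_pieces (hne : ∀ X : 𝒱.Obj, (1 : C.A X) ≠ 0) {f : Cor C X} (hf : f * f = f) {s : Bool}
    (h : DieI s f) :
    ∃ (N : ℕ) (q u v : Fin N → Cor C X), Fam' (gC C X) f N q u v ∧ ∀ i, DieI s (q i) := by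
  obtain ⟨N, q, u, v, hF⟩ := exists_family (𝒢 := gC C X) (tr := trC hne X)
    (finI_dieI (hne := hne) s) (eta_ne s) (fun _ h => DieI.cp_zero h)
    (trC_comm (hne := hne)) (trC_of_ne (hne := hne)) (Finset.Icc (-(X.dim : ℤ)) X.dim)
    (fun r hr a ha => gC_bounded r hr a ha) hf h
  refine ⟨N, q, u, v, hF, fun i => ?_⟩
  have h1 : q i = v i * f * u i := by
    have h2 := hF.orth i i
    rw [if_pos rfl] at h2
    rw [mul_assoc, hF.fu, h2]
  rw [h1]
  exact DieI.right (u i) (DieI.left (v i) h)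

/-! ### Translation -/

lemma isIndecChow_iff (q : Cor C X) : IsIndecChow C (cl q) ↔
    PrimR (gC C X) q ∧ (DieI true q ∨ DieI false q) := by
  have hd : ∀ a : Cor C X, a ∈ gC C X 0 ↔ C.Deg X.dim (cl a) := by
    intro a
    rw [mem_gC, add_zero]
  constructor
  · intro h
    refine ⟨⟨(hd q).2 h.deg, h.idem, h.ne, ?_⟩, ?_⟩
    · intro ε e0 e1 e2 e3
      exact h.indec ε ((hd ε).1 e0) e1 e3 e2
    · rcases h.parity with h1 | h1
      · exact Or.inl ((isEven_iff q).1 h1)
      · exact Or.inr ((isOdd_iff q).1 h1)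
  · rintro ⟨h, h2⟩
    refine ⟨(hd q).1 h.deg, h.idem, ?_, h.ne, ?_⟩
    · rcases h2 with h1 | h1
      · exact Or.inl ((isEven_iff q).2 h1)
      · exact Or.inr ((isOdd_iff q).2 h1)
    · intro ε e0 e1 e2 e3
      exact h.min ε ((hd ε).2 e0) e1 e3 e2

lemma areInverse_iff (p p' a b : Cor C X) :
    AreInverse C (cl p) (cl p') (cl a) (cl b) ↔ Iso' p p' b a :=
  ⟨fun h => ⟨h.bp, h.p'b, h.ap', h.pa, h.ab, h.ba⟩,
    fun h => ⟨h.bq, h.qb, h.aq, h.qa, h.ab, h.ba⟩⟩

lemma isDirectSum_iff (p : Cor C X) {N : ℕ} (q : Fin N → Cor C X) :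
    IsDirectSum C (cl p) (fun i => cl (q i)) ↔ ∃ u v : Fin N → Cor C X, Dec p q u v := by
  constructor
  · rintro ⟨u, v, h1, h2, h3, h4, h5⟩
    exact ⟨v, u, ⟨fun i => (h2 i).2, fun i => (h2 i).1, fun i => (h1 i).2, fun i => (h1 i).1, h3,
      fun i j hij => h4 j i hij.symm, h5⟩⟩
  · rintro ⟨u, v, h⟩
    exact ⟨v, u, fun i => ⟨h.vp i, h.qv i⟩, fun i => ⟨h.uq i, h.pu i⟩, h.one,
      fun i j hij => h.orth j i hij.symm, h.sum⟩

/-! ### The theorems -/

theorem forward (hne : ∀ X : 𝒱.Obj, (1 : C.A X) ≠ 0) {p : C.A (X.prod X)} (hp : C.comp p p = p)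
    (h : IsKimuraFiniteSummand C p) :
    ∃ (N : ℕ) (q : Fin N → C.A (X.prod X)), (∀ i, IsIndecChow C (q i)) ∧ IsDirectSum C p q := by
  obtain ⟨e₀, h1, h2, h3, h4, h5⟩ := h
  set P : Cor C X := p with hP
  set e : Cor C X := e₀ with he
  have hPP : P * P = P := hp
  have hee : e * e = e := h1
  have heP : e * P = e := h2
  have hPe : P * e = e := h3
  have hff : (P - e) * (P - e) = P - e := by
    rw [mul_sub, sub_mul, sub_mul, hPP, heP, hPe, hee, sub_self, sub_zero]
  have hE : DieI true e := (isEven_iff e).1 h4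
  have hO : DieI false (P - e) := (isOdd_iff (P - e)).1 h5
  obtain ⟨N, q, u, v, hF, hq⟩ := exists_pieces hne hee hE
  obtain ⟨N', q', u', v', hF', hq'⟩ := exists_pieces hne hff hO
  have hPf : P * (P - e) = P - e := by rw [mul_sub, hPP, hPe]
  have hfP : (P - e) * P = P - e := by rw [sub_mul, hPP, heP]
  have hef : e * (P - e) = 0 := by rw [mul_sub, heP, hee, sub_self]
  have hfe : (P - e) * e = 0 := by rw [sub_mul, hPe, hee, sub_self]
  refine ⟨N + N', fun i => cl (Fin.append q q' i), ?_, ?_⟩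
  · intro i
    rw [isIndecChow_iff]
    refine Fin.addCases (fun i => ?_) (fun i => ?_) i
    · rw [Fin.append_left]
      exact ⟨hF.prim i, Or.inl (hq i)⟩
    · rw [Fin.append_right]
      exact ⟨hF'.prim i, Or.inr (hq' i)⟩
  · refine (isDirectSum_iff P (Fin.append q q')).2 ⟨Fin.append u u', Fin.append v v', ?_⟩
    refine ⟨?_, ?_, ?_, ?_, ?_, ?_, ?_⟩
    · intro i
      refine Fin.addCases (fun i => ?_) (fun i => ?_) i
      · rw [Fin.append_left, ← hF.fu i, ← mul_assoc, hPe]
      · rw [Fin.append_right, ← hF'.fu i, ← mul_assoc, hPf]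
    · intro i
      refine Fin.addCases (fun i => ?_) (fun i => ?_) i
      · rw [Fin.append_left, Fin.append_left, hF.uq]
      · rw [Fin.append_right, Fin.append_right, hF'.uq]
    · intro i
      refine Fin.addCases (fun i => ?_) (fun i => ?_) i
      · rw [Fin.append_left, Fin.append_left, hF.qv]
      · rw [Fin.append_right, Fin.append_right, hF'.qv]
    · intro i
      refine Fin.addCases (fun i => ?_) (fun i => ?_) i
      · rw [Fin.append_left, ← hF.vf i, mul_assoc, heP]
      · rw [Fin.append_right, ← hF'.vf i, mul_assoc, hfP]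
    · intro i
      refine Fin.addCases (fun i => ?_) (fun i => ?_) i
      · rw [Fin.append_left, Fin.append_left, Fin.append_left, hF.orth, if_pos rfl]
      · rw [Fin.append_right, Fin.append_right, Fin.append_right, hF'.orth, if_pos rfl]
    · intro i j
      refine Fin.addCases (fun i => ?_) (fun i => ?_) i
      · refine Fin.addCases (fun j => ?_) (fun j => ?_) j
        · rw [Fin.append_left, Fin.append_left]
          intro hij
          rw [hF.orth i j, if_neg (by rintro rfl; exact hij rfl)]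
        · rw [Fin.append_left, Fin.append_right]
          intro _
          rw [← hF.vf i, ← hF'.fu j, mul_assoc, ← mul_assoc e, hef, zero_mul, mul_zero]
      · refine Fin.addCases (fun j => ?_) (fun j => ?_) j
        · rw [Fin.append_right, Fin.append_left]
          intro _
          rw [← hF'.vf i, ← hF.fu j, mul_assoc, ← mul_assoc (P - e), hfe, zero_mul, mul_zero]
        · rw [Fin.append_right, Fin.append_right]
          intro hij
          rw [hF'.orth i j, if_neg (by rintro rfl; exact hij rfl)]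
    · rw [Fin.sum_univ_add]
      simp only [Fin.append_left, Fin.append_right]
      rw [← hF.sum, ← hF'.sum]
      abel

theorem backward {p : C.A (X.prod X)} {N : ℕ} {q : Fin N → C.A (X.prod X)}
    (hq : ∀ i, IsIndecChow C (q i)) (h : IsDirectSum C p q) : IsKimuraFiniteSummand C p := by
  classical
  let P : Cor C X := p
  let Q : Fin N → Cor C X := q
  obtain ⟨A, B, hd⟩ : ∃ u v : Fin N → Cor C X, Dec P Q u v := (isDirectSum_iff P Q).1 h
  have key : ∀ (T : Finset (Fin N)) (s : Bool), (∀ i ∈ T, DieI s (Q i)) →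
      DieI s (∑ i ∈ T, A i * B i) := by
    intro T s hT
    refine DieC.sum T _ fun i hi => ?_
    have h6 := (hT i hi).left (A i)
    rw [hd.uq] at h6
    exact h6.right (B i)
  let T : Finset (Fin N) := Finset.univ.filter fun i => IsEven C (q i)
  let e : Cor C X := ∑ i ∈ T, A i * B i
  have he1 : e * e = e := by
    change (∑ i ∈ T, A i * B i) * (∑ i ∈ T, A i * B i) = ∑ i ∈ T, A i * B i
    rw [Finset.sum_mul_sum]
    refine Finset.sum_congr rfl fun i hi => ?_
    rw [Finset.sum_eq_single i]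
    · calc A i * B i * (A i * B i) = A i * (B i * A i) * B i := by simp only [mul_assoc]
        _ = A i * B i := by rw [hd.one, hd.uq]
    · intro j _ hji
      calc A i * B i * (A j * B j) = A i * (B i * A j) * B j := by simp only [mul_assoc]
        _ = 0 := by rw [hd.orth i j hji.symm, mul_zero, zero_mul]
    · intro hn
      exact (hn hi).elim
  have he2 : P * e = e := by
    change P * (∑ i ∈ T, A i * B i) = ∑ i ∈ T, A i * B i
    rw [Finset.mul_sum]
    exact Finset.sum_congr rfl fun i _ => by rw [← mul_assoc, hd.pu]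
  have he3 : e * P = e := by
    change (∑ i ∈ T, A i * B i) * P = ∑ i ∈ T, A i * B i
    rw [Finset.sum_mul]
    exact Finset.sum_congr rfl fun i _ => by rw [mul_assoc, hd.vp]
  have he4 : P - e = ∑ i ∈ Tᶜ, A i * B i := by
    have h6 := Finset.sum_add_sum_compl T fun i => A i * B i
    rw [← hd.sum, ← h6]
    change _ - ∑ i ∈ T, A i * B i = _
    abel
  refine ⟨e, he1, he3, he2, ?_, ?_⟩
  · exact (isEven_iff e).2 (key T true fun i hi => (isEven_iff (Q i)).1 (Finset.mem_filter.1 hi).2)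
  · have h6 : DieI false (P - e) := by
      rw [he4]
      refine key Tᶜ false fun i hi => (isOdd_iff (Q i)).1 ?_
      rcases (hq i).parity with h7 | h7
      · exact ((Finset.mem_compl.1 hi) (Finset.mem_filter.2 ⟨Finset.mem_univ _, h7⟩)).elim
      · exact h7
    exact (isOdd_iff (P - e)).2 h6

/-- **The classification.** -/
theorem classification (hne : ∀ X : 𝒱.Obj, (1 : C.A X) ≠ 0) {p p' : C.A (X.prod X)} {N N' : ℕ}
    {q : Fin N → C.A (X.prod X)} {q' : Fin N' → C.A (X.prod X)} (hq : ∀ i, IsIndecChow C (q i))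
    (hq' : ∀ i, IsIndecChow C (q' i)) (h : IsDirectSum C p q) (h' : IsDirectSum C p' q') :
    AreIsomorphic C p p' ↔ ∃ σ : Fin N ≃ Fin N', ∀ i, AreTwists C (q i) (q' (σ i)) := by
  let P : Cor C X := p
  let P' : Cor C X := p'
  let Q : Fin N → Cor C X := q
  let Q' : Fin N' → Cor C X := q'
  obtain ⟨u, v, hd⟩ : ∃ u v : Fin N → Cor C X, Dec P Q u v := (isDirectSum_iff P Q).1 h
  obtain ⟨u', v', hd'⟩ : ∃ u v : Fin N' → Cor C X, Dec P' Q' u v := (isDirectSum_iff P' Q').1 h'
  have hpr : ∀ i, PrimR (gC C X) (Q i) := fun i => ((isIndecChow_iff (Q i)).1 (hq i)).1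
  have hpr' : ∀ i, PrimR (gC C X) (Q' i) := fun i => ((isIndecChow_iff (Q' i)).1 (hq' i)).1
  have hIsF : ∀ a : Cor C X, DieI true a ∨ DieI false a → IsF (trC hne X) a := by
    rintro a (ha | ha)
    · exact ⟨eta true, DieI true, eta_ne true, finI_dieI (hne := hne) true, ha⟩
    · exact ⟨eta false, DieI false, eta_ne false, finI_dieI (hne := hne) false, ha⟩
  have hF : ∀ i, IsF (trC hne X) (Q i) := fun i => hIsF _ ((isIndecChow_iff (Q i)).1 (hq i)).2
  have hF' : ∀ i, IsF (trC hne X) (Q' i) := fun i => hIsF _ ((isIndecChow_iff (Q' i)).1 (hq' i)).2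
  have hE : ∀ r ∉ Finset.Icc (-(X.dim : ℤ)) X.dim, ∀ a ∈ gC C X r, a = 0 :=
    fun r hr a ha => gC_bounded r hr a ha
  constructor
  · rintro ⟨a, b, hab⟩
    have h1 : Iso' P P' b a := (areInverse_iff P P' a b).1 hab
    obtain ⟨σ, hσ⟩ := exists_perm (𝒢 := gC C X) (tr := trC hne X) (trC_comm (hne := hne)) hE
      (trC_of_ne (hne := hne)) hd (hd'.transport h1) hpr hF hpr' hF'
    refine ⟨σ, fun i => ?_⟩
    obtain ⟨r, c, hc, d, hd1, h2⟩ := twist_of_iso (𝒢 := gC C X) (tr := trC hne X) hE (hpr i) (hF i)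
      (hpr' (σ i)) (hσ i)
    refine ⟨-r, cl d, cl c, mem_gC.1 hd1, ?_, (areInverse_iff (Q i) (Q' (σ i)) d c).2 h2⟩
    rw [sub_neg_eq_add]
    exact mem_gC.1 hc
  · rintro ⟨σ, hσ⟩
    have h1 : ∀ i, IsoR (Q i) (Q' (σ i)) := by
      intro i
      obtain ⟨r, a, b, -, -, h2⟩ := hσ i
      exact ⟨b, a, (areInverse_iff (Q i) (Q' (σ i)) a b).1 h2⟩
    obtain ⟨a, b, h2⟩ := iso_of_perm hd hd' σ h1
    exact ⟨b, a, (areInverse_iff P P' b a).2 h2⟩

end Pool.Agent.Zk90.KG
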